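import Mathlib

/-!
# The weights: partial fractions
-/

set_option autoImplicit false

namespace Pool.Agent.L5helper17.RF

open Polynomial Finset

/-- the signed binomial coefficients -/
noncomputable def sc (m i : ℕ) : ℂ := (-1) ^ i * (m.choose i : ℂ)

/-- the alternating sums of a polynomial of small degree vanish -/
lemma sum_sc_eq_zero {Q : ℂ[X]} {m : ℕ} (hQ : Q.natDegree < m) :
    ∑ i ∈ range (m + 1), sc m i * Q.eval (-(i : ℂ)) = 0 := by
  have hQ' : (Q.comp (-X)).natDegree < m := by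
    rw [natDegree_comp, natDegree_neg, natDegree_X, mul_one]
    exact hQ
  have h1 := Polynomial.fwdDiff_iter_eq_zero_of_degree_lt hQ'
  have h2 := fwdDiff_iter_eq_sum_shift (h := (1 : ℂ)) (fun x => (Q.comp (-X)).eval x) m 0
  have h3 := congrFun h1 0
  simp only [Pi.zero_apply] at h3
  rw [h3] at h2
  have h4 : ∑ i ∈ range (m + 1), sc m i * Q.eval (-(i : ℂ)) =
      (-1) ^ m * ∑ k ∈ range (m + 1), ((-1 : ℤ) ^ (m - k) * (m.choose k : ℤ)) • (Q.comp (-X)).eval (0 + k • (1 : ℂ)) := by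
    rw [mul_sum]
    refine sum_congr rfl fun i hi => ?_
    have hi' : i ≤ m := Nat.lt_succ_iff.1 (mem_range.1 hi)
    have e1 : (0 : ℂ) + i • (1 : ℂ) = (i : ℂ) := by simp
    rw [e1, eval_comp, eval_neg, eval_X, zsmul_eq_mul]
    push_cast
    unfold sc
    have e2 : ((-1 : ℂ)) ^ m = (-1) ^ (m - i) * (-1) ^ i := by
      rw [← pow_add]; congr 1; omega
    have e3 : ((-1 : ℂ)) ^ (m - i) * (-1) ^ (m - i) = 1 := by
      rw [← mul_pow]; simp
    rw [e2]
    linear_combination (-((m.choose i : ℂ) * eval (-(i : ℂ)) Q * (-1) ^ i)) * e3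
  rw [h4, ← h2, mul_zero]

/-- the product in the denominator -/
noncomputable def dn (m : ℕ) (w : ℂ) : ℂ := ∏ i ∈ range (m + 1), (w + i)

lemma sum_sc_div {Q : ℂ[X]} {m : ℕ} (hQ : Q.natDegree ≤ m) {w : ℂ} (hw : ∀ i ≤ m, w + (i : ℂ) ≠ 0) :
    ∑ i ∈ range (m + 1), sc m i * Q.eval (-(i : ℂ)) / (w + i) =
      Q.eval w * ∑ i ∈ range (m + 1), sc m i / (w + i) := by
  by_cases h0 : Q - C (Q.eval w) = 0
  · have h1 : Q = C (Q.eval w) := sub_eq_zero.1 h0
    rw [mul_sum]
    refine sum_congr rfl fun i _ => ?_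
    rw [h1]
    simp only [eval_C]
    ring
  obtain ⟨R, hR⟩ : (X - C w) ∣ (Q - C (Q.eval w)) := by
    rw [dvd_iff_isRoot]
    simp
  have hR0 : R ≠ 0 := by
    rintro rfl
    rw [mul_zero] at hR
    exact h0 hR
  have hdeg : R.natDegree < m := by
    have h1 : (Q - C (Q.eval w)).natDegree ≤ m := by rw [natDegree_sub_C]; exact hQ
    rw [hR, natDegree_mul (X_sub_C_ne_zero w) hR0, natDegree_X_sub_C] at h1
    omega
  have h1 : ∀ i ∈ range (m + 1), sc m i * Q.eval (-(i : ℂ)) / (w + i) =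
      Q.eval w * (sc m i / (w + i)) - sc m i * R.eval (-(i : ℂ)) := by
    intro i hi
    have hne := hw i (Nat.lt_succ_iff.1 (mem_range.1 hi))
    have h2 := congrArg (eval (-(i : ℂ))) hR
    simp only [eval_sub, eval_C, eval_mul, eval_X] at h2
    rw [div_eq_iff hne, sub_mul, mul_assoc, div_mul_cancel₀ _ hne]
    linear_combination (sc m i) * h2
  rw [sum_congr rfl h1, sum_sub_distrib, ← mul_sum, sum_sc_eq_zero hdeg, sub_zero]

/-- the sum of the simple fractions -/
lemma sum_sc_one {m : ℕ} {w : ℂ} (hw : ∀ i ≤ m, w + (i : ℂ) ≠ 0) :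
    ∑ i ∈ range (m + 1), sc m i / (w + i) = (m.factorial : ℂ) / dn m w := by
  set Q : ℂ[X] := ∏ l ∈ range m, (X + C ((l : ℂ) + 1)) with hQ
  have hdeg : Q.natDegree ≤ m := by
    rw [hQ, natDegree_prod_of_monic _ _ fun l _ => monic_X_add_C _]
    simp only [natDegree_X_add_C, sum_const, card_range, smul_eq_mul, mul_one]
    exact le_rfl
  have h1 := sum_sc_div hdeg hw
  have e1 : ∀ x : ℂ, Q.eval x = ∏ l ∈ range m, (x + ((l : ℂ) + 1)) := by
    intro x
    rw [hQ, eval_prod]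
    simp
  have e2 : ∑ i ∈ range (m + 1), sc m i * Q.eval (-(i : ℂ)) / (w + i) = (m.factorial : ℂ) / w := by
    rw [sum_range_succ']
    have h2 : ∀ i ∈ range m, sc m (i + 1) * Q.eval (-((i + 1 : ℕ) : ℂ)) / (w + ((i + 1 : ℕ) : ℂ)) = 0 := by
      intro i hi
      have h3 : Q.eval (-((i + 1 : ℕ) : ℂ)) = 0 := by
        rw [e1]
        apply prod_eq_zero hi
        push_cast
        ring
      rw [h3]
      simp
    rw [sum_eq_zero h2, zero_add, e1]
    have h4 : ∏ l ∈ range m, (-((0 : ℕ) : ℂ) + ((l : ℂ) + 1)) = (m.factorial : ℂ) := by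
      rw [← prod_range_add_one_eq_factorial]
      push_cast
      refine prod_congr rfl fun l _ => ?_
      ring
    rw [h4]
    simp [sc]
  rw [e2] at h1
  have hw0 : w ≠ 0 := by simpa using hw 0 (Nat.zero_le m)
  have e3 : dn m w = w * Q.eval w := by
    unfold dn
    rw [prod_range_succ', e1, mul_comm]
    simp
  have hQ0 : Q.eval w ≠ 0 := by
    rw [e1, prod_ne_zero_iff]
    intro l hl
    have := hw (l + 1) (mem_range.1 hl)
    push_cast at this
    exact this
  rw [e3]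
  field_simp
  field_simp at h1
  linear_combination (-1 : ℂ) * h1

end Pool.Agent.L5helper17.RF
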