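import Pool.Agent.L5helper17.RF.Far

/-!
# From the bounds for the weighted moments to the continuation
-/

set_option autoImplicit false

namespace Pool.Agent.L5helper17.RF

open Complex Filter Topology MeasureTheory Set
open Pool.Agent.Q48.MDS
open Pool.Agent.L5helper5.LE (Lx Lx_def Lx_diff S P tm P_diff Om isOpen_Om convex_Om convex_orth HB im1 im1_ge im1_le F_eq
  tempered_SP)

variable {k : ℕ}

lemma cons_tail (z : Fin (k + 1) → ℂ) : (Fin.cons (z 0) (fun j : Fin k => z j.succ) : Fin (k + 1) → ℂ) = z := by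
  funext i
  refine Fin.cases ?_ (fun j => ?_) i <;> simp

lemma ee_far (M m : ℕ) (s : Fin k → ℂ) {t : ℝ} (ht : 1 / 2 < t) : ee k M m s t = 0 := by
  rw [ee_eq_sum k M m s (N := 2) (by push_cast; linarith) (by linarith), Finset.sum_range_succ, Finset.sum_range_one,
    cfn_zero k M s (Nat.zero_le 1), cfn_zero k M s le_rfl]
  simp

lemma cfn_diff (M d : ℕ) : Differentiable ℂ (fun z : Fin (k + 1) → ℂ => cfn k M d (fun j => z j.succ)) := by
  unfold cfn
  by_cases h : FundDisc d ∧ 1 < d
  · simp only [if_pos h]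
    refine Differentiable.const_mul ?_ _
    intro z
    exact (HasFDerivAt.finsetProd (g := fun (j : Fin k) (z : Fin (k + 1) → ℂ) => Lx d (z j.succ))
      (fun j _ => (((Lx_diff d).comp (differentiable_apply j.succ)) z).hasFDerivAt)).differentiableAt
  · simp only [if_neg h]
    exact differentiable_const 0

lemma g1_diff (m : ℕ) (t : ℝ) : Differentiable ℂ (fun z : Fin (k + 1) → ℂ => g1 (pc (fun j : Fin k => z j.succ)) m t) := by
  unfold g1
  by_cases ht : t ∈ Ioc (0 : ℝ) 1
  · simp only [indicator_of_mem ht]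
    unfold wt
    refine Differentiable.fun_sum fun i _ => ?_
    refine Differentiable.mul_const ?_ _
    refine Differentiable.const_mul ?_ _
    simp only [eval_pc]
    refine (P_diff k).comp ?_
    refine differentiable_pi.2 fun l => ?_
    refine Fin.cases ?_ (fun j => ?_) l
    · simp only [Fin.cons_zero]
      exact differentiable_const _
    · simp only [Fin.cons_succ]
      exact differentiable_apply _
  · simp only [indicator_of_notMem ht]
    exact differentiable_const 0

lemma ee_diff (M m : ℕ) {t : ℝ} (ht : 0 < t) :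
    Differentiable ℂ (fun z : Fin (k + 1) → ℂ => ee k M m (fun j => z j.succ) t) := by
  obtain ⟨N, hN⟩ := exists_nat_gt (1 / t)
  rw [div_lt_iff₀ ht] at hN
  have h1 : (fun z : Fin (k + 1) → ℂ => ee k M m (fun j => z j.succ) t) = fun z =>
      ∑ d ∈ Finset.range N, cfn k M d (fun j => z j.succ) * g1 (pc (fun j : Fin k => z j.succ)) m (d * t) :=
    funext fun z => ee_eq_sum k M m _ hN ht
  rw [h1]
  exact Differentiable.fun_sum fun d _ => (cfn_diff M d).mul (g1_diff m _)

/-- the integrand -/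
noncomputable def fK (k M m : ℕ) (z : Fin (k + 1) → ℂ) (t : ℝ) : ℂ :=
  (Ioc (0 : ℝ) 1).indicator (fun t : ℝ => (t : ℂ) ^ (z 0 - 1) * ee k M m (fun j => z j.succ) t) t

lemma integral_fK (M m : ℕ) (z : Fin (k + 1) → ℂ) :
    ∫ t, fK k M m z t = mellin (ee k M m (fun j => z j.succ)) (z 0) := by
  have h1 : ∀ t : ℝ, fK k M m z t = (Ioi (0 : ℝ)).indicator
      (fun t : ℝ => (t : ℂ) ^ (z 0 - 1) • ee k M m (fun j => z j.succ) t) t := by
    intro t
    unfold fK
    by_cases ht : 0 < t
    · rw [indicator_of_mem (show t ∈ Ioi (0 : ℝ) from ht)]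
      by_cases ht1 : t ≤ 1
      · rw [indicator_of_mem (show t ∈ Ioc (0 : ℝ) 1 from ⟨ht, ht1⟩), smul_eq_mul]
      · rw [indicator_of_notMem (fun hm => ht1 hm.2), ee_far M m _ (by linarith [not_le.1 ht1]), smul_zero]
    · rw [indicator_of_notMem (show t ∉ Ioc (0 : ℝ) 1 from fun hm => ht hm.1),
        indicator_of_notMem (show t ∉ Ioi (0 : ℝ) from fun hm => ht hm)]
  simp only [h1]
  rw [integral_indicator measurableSet_Ioi]
  rfl

lemma dn_diff (m : ℕ) : Differentiable ℂ (dn m) := by
  unfold dn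
  intro w
  exact DifferentiableAt.fun_finsetProd fun i _ => (differentiableAt_id.add_const _)

lemma dn_bound (m : ℕ) (w : ℂ) : ‖dn m w‖ ≤ (‖w‖ + m) ^ (m + 1) := by
  unfold dn
  rw [norm_prod]
  calc ∏ i ∈ Finset.range (m + 1), ‖w + (i : ℂ)‖ ≤ ∏ _i ∈ Finset.range (m + 1), (‖w‖ + m) := by
        refine Finset.prod_le_prod (fun i _ => norm_nonneg _) fun i hi => ?_
        have hi' : (i : ℝ) ≤ m := by exact_mod_cast Nat.lt_succ_iff.1 (Finset.mem_range.1 hi)
        refine (norm_add_le _ _).trans ?_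
        rw [Complex.norm_natCast]
        linarith
    _ = _ := by rw [Finset.prod_const, Finset.card_range]

/-- **from bounds to the continuation** -/
theorem continuesTo_of_bound {M m : ℕ} (hm : 2 ^ k < m) {β β' η : ℝ} {s0 : Fin k → ℝ} (hs0 : ∀ j, 0 < s0 j)
    (hη : 0 < η) (hβ : β' < β) {C : ℝ} {N : ℕ} (hC : 0 ≤ C)
    (h : ∀ s : Fin k → ℂ, (∀ j, |(s j).re - s0 j| < η) → ∀ t : ℝ, 0 < t → t ≤ 1 →
      ‖ee k M m s t‖ ≤ C * t ^ (-β') * (1 + ‖fun j => (s j).im‖) ^ N) :
    ContinuesTo k M (Fin.cons β s0) := by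
  -- a lower bound for the coordinates
  obtain ⟨ε, hε, hεs⟩ : ∃ ε : ℝ, 0 < ε ∧ ∀ j, 2 * ε ≤ s0 j := by
    rcases isEmpty_or_nonempty (Fin k) with he | hne
    · exact ⟨1, one_pos, fun j => (he.false j).elim⟩
    · obtain ⟨j0, -, hj0⟩ := Finset.exists_min_image (Finset.univ : Finset (Fin k)) s0 Finset.univ_nonempty
      exact ⟨s0 j0 / 2, by linarith [hs0 j0], fun j => by linarith [hj0 j (Finset.mem_univ j)]⟩
  set η' := min η ε with hη'
  have hη'0 : 0 < η' := lt_min hη hε
  obtain ⟨w0, hw0, hSO, hSorth, hsum⟩ := exists_far' k M hε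
  set O := Om k w0 (1 / 2 - ε) with hO
  set Ω : Set (Fin (k + 1) → ℝ) := {x | β' < x 0 ∧ ∀ j : Fin k, |x j.succ - s0 j| < η'} with hΩ
  have hΩo : IsOpen Ω := by
    have : Ω = {x | β' < x 0} ∩ ⋂ j : Fin k, {x : Fin (k + 1) → ℝ | |x j.succ - s0 j| < η'} := by
      ext x; simp [hΩ]
    rw [this]
    exact (isOpen_lt continuous_const (continuous_apply 0)).inter
      (isOpen_iInter_of_finite fun j => isOpen_lt (((continuous_apply _).sub continuous_const).abs) continuous_const)
  have hΩc : Convex ℝ Ω := by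
    intro x hx y hy a b ha hb hab
    refine ⟨?_, fun j => ?_⟩
    · exact Pool.Agent.L5helper5.LE.convex_lt_aux ha hb hab hx.1 hy.1
    · have h1 := abs_lt.1 (hx.2 j)
      have h2 := abs_lt.1 (hy.2 j)
      rw [abs_lt]
      have e1 : (a • x + b • y) j.succ - s0 j = a * (x j.succ - s0 j) + b * (y j.succ - s0 j) := by
        simp only [Pi.add_apply, Pi.smul_apply, smul_eq_mul]
        linear_combination (s0 j) * hab
      rw [e1]
      constructor
      · have := Pool.Agent.L5helper5.LE.convex_lt_aux ha hb hab h1.1 h2.1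
        linarith
      · have := Pool.Agent.L5helper5.LE.convex_lt_aux (c := -η') ha hb hab (x := -(x j.succ - s0 j)) (y := -(y j.succ - s0 j))
          (by linarith) (by linarith)
        linarith
  have hΩs : ∀ x ∈ Ω, ∀ j : Fin k, ε < x j.succ := by
    intro x hx j
    have h1 := (abs_lt.1 (hx.2 j)).1
    have h2 : η' ≤ ε := min_le_right _ _
    linarith [hεs j]
  have hb : ∀ z ∈ tube Ω, ∀ t : ℝ, 0 < t → t ≤ 1 →
      ‖ee k M m (fun j => z j.succ) t‖ ≤ C * t ^ (-β') * im1 z ^ N := by
    intro z hz t ht ht1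
    have hz2 : ∀ j : Fin k, |(z j.succ).re - s0 j| < η' := fun j => hz.2 j
    refine (h _ (fun j => lt_of_lt_of_le (hz2 j) (min_le_left _ _)) t ht ht1).trans ?_
    refine mul_le_mul_of_nonneg_left ?_ (by positivity)
    refine pow_le_pow_left₀ (by positivity) ?_ N
    unfold im1
    gcongr
    refine (pi_norm_le_iff_of_nonneg (norm_nonneg _)).2 fun j => ?_
    exact norm_le_pi_norm (fun i => (z i).im) j.succ
  have hfb : ∀ z ∈ tube Ω, ∀ δ0 : ℝ, β' + δ0 ≤ (z 0).re → ∀ t : ℝ,
      ‖fK k M m z t‖ ≤ (Ioc (0 : ℝ) 1).indicator (fun t => C * im1 z ^ N * t ^ (δ0 - 1)) t := by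
    intro z hz δ0 hδ0 t
    unfold fK
    by_cases ht : t ∈ Ioc (0 : ℝ) 1
    · rw [indicator_of_mem ht, indicator_of_mem ht, norm_mul, norm_cpow_eq_rpow_re_of_pos ht.1]
      have h1 := hb z hz t ht.1 ht.2
      have h2 : t ^ (z 0 - 1).re * t ^ (-β') ≤ t ^ (δ0 - 1) := by
        rw [← Real.rpow_add ht.1]
        apply Real.rpow_le_rpow_of_exponent_ge ht.1 ht.2
        simp only [sub_re, one_re]
        linarith
      have h0 := im1_ge z
      calc t ^ (z 0 - 1).re * ‖ee k M m (fun j => z j.succ) t‖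
          ≤ t ^ (z 0 - 1).re * (C * t ^ (-β') * im1 z ^ N) :=
            mul_le_mul_of_nonneg_left h1 (Real.rpow_nonneg ht.1.le _)
        _ = C * im1 z ^ N * (t ^ (z 0 - 1).re * t ^ (-β')) := by ring
        _ ≤ C * im1 z ^ N * t ^ (δ0 - 1) := mul_le_mul_of_nonneg_left h2 (by positivity)
    · rw [indicator_of_notMem ht, indicator_of_notMem ht, norm_zero]
  have hbint : ∀ (A δ0 : ℝ), 0 < δ0 → Integrable ((Ioc (0 : ℝ) 1).indicator (fun t => A * t ^ (δ0 - 1))) := by
    intro A δ0 hδ0
    rw [integrable_indicator_iff measurableSet_Ioc]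
    have h1 : IntervalIntegrable (fun t : ℝ => t ^ (δ0 - 1)) volume 0 1 :=
      intervalIntegral.intervalIntegrable_rpow' (by linarith)
    exact ((intervalIntegrable_iff_integrableOn_Ioc_of_le zero_le_one).1 h1).const_mul A
  have hbval : ∀ (A δ0 : ℝ), 0 < δ0 → ∫ t, (Ioc (0 : ℝ) 1).indicator (fun t => A * t ^ (δ0 - 1)) t = A * (1 / δ0) := by
    intro A δ0 hδ0
    rw [integral_indicator measurableSet_Ioc, integral_const_mul, ← intervalIntegral.integral_of_le zero_le_one,
      integral_rpow (Or.inl (by linarith))]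
    have e1 : δ0 - 1 + 1 = δ0 := by ring
    rw [e1, Real.one_rpow, Real.zero_rpow hδ0.ne']
    ring
  have hmeas : ∀ z : Fin (k + 1) → ℂ, AEStronglyMeasurable (fK k M m z) := by
    intro z
    unfold fK
    rw [aestronglyMeasurable_indicator_iff measurableSet_Ioc]
    refine ContinuousOn.aestronglyMeasurable ?_ measurableSet_Ioc
    have hc : ContinuousOn (fun t : ℝ => (t : ℂ) ^ (z 0 - 1)) (Ioi 0) := by
      intro t ht
      have ht0 : (0 : ℝ) < t := ht
      refine ContinuousAt.continuousWithinAt ?_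
      exact ContinuousAt.cpow continuous_ofReal.continuousAt continuousAt_const (Or.inl (by simpa using ht0))
    exact (hc.mul (ee_cont hm _)).mono fun t ht => ht.1
  -- the integral is holomorphic
  have hId : DifferentiableOn ℂ (fun z : Fin (k + 1) → ℂ => ∫ t, fK k M m z t) (tube Ω) := by
    refine differentiableOn_integral (isOpen_tube hΩo) (fK k M m) ?_ (fun z _ => hmeas z) ?_
    · intro t
      unfold fK
      by_cases ht : t ∈ Ioc (0 : ℝ) 1
      · simp only [indicator_of_mem ht]
        have ht0 : (t : ℂ) ≠ 0 := by exact_mod_cast ht.1.ne'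
        have h2 : Differentiable ℂ fun z : Fin (k + 1) → ℂ => z 0 - 1 := (differentiable_apply 0).sub_const 1
        exact ((h2.const_cpow (Or.inl ht0)).mul (ee_diff M m ht.1)).differentiableOn
      · simp only [indicator_of_notMem ht]
        exact differentiableOn_const _
    · intro z0 hz0
      have h1 : β' < (z0 0).re := hz0.1
      set δ0 := ((z0 0).re - β') / 2 with hδ0
      have hδ0' : 0 < δ0 := by rw [hδ0]; linarith
      refine ⟨tube Ω ∩ ({z | β' + δ0 < (z 0).re} ∩ {z | im1 z < im1 z0 + 1}), ?_, _,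
        hbint (C * (im1 z0 + 1) ^ N) δ0 hδ0', ?_⟩
      · refine Filter.inter_mem ((isOpen_tube hΩo).mem_nhds hz0) (Filter.inter_mem ?_ ?_)
        · refine (isOpen_lt continuous_const (continuous_re.comp (continuous_apply 0))).mem_nhds ?_
          show β' + δ0 < (z0 0).re
          rw [hδ0]; linarith
        · refine (isOpen_lt ?_ continuous_const).mem_nhds ?_
          · unfold im1
            exact continuous_const.add (continuous_norm.comp (continuous_pi fun i => continuous_im.comp (continuous_apply i)))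
          · show im1 z0 < im1 z0 + 1
            linarith
      · rintro z ⟨hz1, hz2, hz3⟩ t
        refine (hfb z hz1 δ0 (le_of_lt hz2) t).trans ?_
        by_cases ht : t ∈ Ioc (0 : ℝ) 1
        · rw [indicator_of_mem ht, indicator_of_mem ht]
          have h0 := im1_ge z
          have h4 : im1 z ^ N ≤ (im1 z0 + 1) ^ N := pow_le_pow_left₀ (by linarith) (le_of_lt hz3) N
          have h5 : (0 : ℝ) ≤ t ^ (δ0 - 1) := Real.rpow_nonneg ht.1.le _
          exact mul_le_mul_of_nonneg_right (mul_le_mul_of_nonneg_left h4 hC) h5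
        · rw [indicator_of_notMem ht, indicator_of_notMem ht]
  set G1 : (Fin (k + 1) → ℂ) → ℂ := fun z => dn m (z 0) / (m.factorial : ℂ) * ∫ t, fK k M m z t with hG1
  have hG1t : Tempered Ω G1 := by
    constructor
    · have h0 : Differentiable ℂ (fun z : Fin (k + 1) → ℂ => dn m (z 0)) :=
        (dn_diff m).comp (differentiable_apply (𝕜 := ℂ) (0 : Fin (k + 1)))
      have h1 : DifferentiableOn ℂ (fun z : Fin (k + 1) → ℂ => dn m (z 0) / (m.factorial : ℂ)) (tube Ω) := by
        simp only [div_eq_mul_inv]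
        exact (h0.mul_const _).differentiableOn
      exact h1.mul hId
    · intro K hK hc
      rcases K.eq_empty_or_nonempty with rfl | hne
      · exact ⟨0, 0, fun z hz => absurd hz (notMem_empty _)⟩
      obtain ⟨xa, hxa, hmin⟩ := hc.exists_isMinOn hne (continuous_apply (0 : Fin (k + 1))).continuousOn
      obtain ⟨R, hR⟩ := hc.isBounded.exists_norm_le
      set δ0 := xa 0 - β' with hδ0
      have hδ0' : 0 < δ0 := by
        have : β' < xa 0 := (hK hxa).1
        rw [hδ0]; linarith
      have hfac : (1 : ℝ) ≤ (m.factorial : ℝ) := by exact_mod_cast Nat.one_le_iff_ne_zero.2 m.factorial_ne_zero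
      refine ⟨(|R| + 1 + m) ^ (m + 1) * (C * (1 / δ0)), (m + 1) + N, fun z hz => ?_⟩
      have hz' : z ∈ tube Ω := hK hz
      have h1 : β' + δ0 ≤ (z 0).re := by
        have : xa 0 ≤ (z 0).re := hmin hz
        rw [hδ0]; linarith
      have h2 : ‖∫ t, fK k M m z t‖ ≤ C * im1 z ^ N * (1 / δ0) := by
        rw [← hbval (C * im1 z ^ N) δ0 hδ0']
        exact norm_integral_le_of_norm_le (hbint _ _ hδ0') (Eventually.of_forall fun t => hfb z hz' δ0 h1 t)
      have h0 := im1_ge z
      have h3 : ‖z 0‖ + m ≤ (|R| + 1 + m) * im1 z := by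
        have h4 := Complex.norm_le_abs_re_add_abs_im (z 0)
        have h5 : |(z 0).re| ≤ |R| := by
          have h6 := norm_le_pi_norm (fun i => (z i).re) 0
          rw [Real.norm_eq_abs] at h6
          exact (h6.trans (hR _ hz)).trans (le_abs_self R)
        have h6 := im1_le z 0
        have h7 : (0 : ℝ) ≤ m := Nat.cast_nonneg m
        have h8 := abs_nonneg R
        nlinarith [mul_nonneg h8 (by linarith : (0 : ℝ) ≤ im1 z - 1), mul_nonneg h7 (by linarith : (0 : ℝ) ≤ im1 z - 1)]
      have h4 : ‖dn m (z 0) / (m.factorial : ℂ)‖ ≤ ((|R| + 1 + m) * im1 z) ^ (m + 1) := by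
        rw [norm_div, Complex.norm_natCast]
        refine (div_le_self (norm_nonneg _) hfac).trans ((dn_bound m _).trans ?_)
        exact pow_le_pow_left₀ (by positivity) h3 _
      show ‖G1 z‖ ≤ _ * im1 z ^ _
      rw [hG1]
      simp only
      rw [norm_mul]
      calc ‖dn m (z 0) / (m.factorial : ℂ)‖ * ‖∫ t, fK k M m z t‖
          ≤ ((|R| + 1 + m) * im1 z) ^ (m + 1) * (C * im1 z ^ N * (1 / δ0)) :=
            mul_le_mul h4 h2 (norm_nonneg _) (by positivity)
        _ = _ := by rw [mul_pow, pow_add]; ring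
  -- agreement
  have heO : EqOn G1 (fun z => S k M z * P k z) (tube (Ω ∩ O)) := by
    intro z hz
    have hzO : z ∈ tube O := hz.2
    have hre : 0 < (z 0).re := by
      have : w0 < (z 0).re := hz.2.1
      linarith
    have hs := hsum z hzO
    rw [← cons_tail z] at hs
    have h1 := (hasMellin_ee hm hre hs).2
    show dn m (z 0) / (m.factorial : ℂ) * ∫ t, fK k M m z t = S k M z * P k z
    rw [integral_fK, h1, cons_tail]
    have h2 : dn m (z 0) ≠ 0 := by
      unfold dn
      rw [Finset.prod_ne_zero_iff]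
      intro i hi
      exact dn_ne hre i (Nat.lt_succ_iff.1 (Finset.mem_range.1 hi))
    have h3 : (m.factorial : ℂ) ≠ 0 := by exact_mod_cast m.factorial_ne_zero
    field_simp
  obtain ⟨g1', hg1, e1, e2⟩ := tempered_glue (isOpen_Om k w0 _) (isOpen_orth (k + 1)) hSO hSorth (fun _ _ => rfl)
  have hOo : IsOpen (O ∪ orth (k + 1)) := (isOpen_Om k w0 _).union (isOpen_orth _)
  have he2 : EqOn G1 g1' (tube (Ω ∩ (O ∪ orth (k + 1)))) := by
    intro z hz
    have hz1 : z ∈ tube Ω := hz.1
    have hz2 : (fun i => (z i).re) ∈ O ∪ orth (k + 1) := hz.2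
    rcases hz2 with hz2 | hz2
    · rw [e1 hz2]
      exact heO ⟨hz.1, hz2⟩
    · rw [e2 hz2]
      have hne : (Ω ∩ orth (k + 1) ∩ O).Nonempty := by
        refine ⟨Function.update (fun i => (z i).re) 0 (max ((z 0).re) (w0 + 1)), ⟨⟨?_, fun j => ?_⟩, fun i => ?_⟩, ?_, fun j => ?_⟩
        · rw [Function.update_self]
          have : β' < (z 0).re := hz.1.1
          exact lt_of_lt_of_le this (le_max_left _ _)
        · rw [Function.update_of_ne (Fin.succ_ne_zero j)]
          exact hz.1.2 j
        · by_cases hi : i = 0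
          · subst hi
            rw [Function.update_self]
            exact lt_of_lt_of_le (by linarith) (le_max_right _ _)
          · rw [Function.update_of_ne hi]
            exact hz2 i
        · rw [Function.update_self]
          exact lt_of_lt_of_le (by linarith) (le_max_right _ _)
        · rw [Function.update_of_ne (Fin.succ_ne_zero j)]
          have := hΩs _ hz.1 j
          linarith
      have h3 := eqOn_tube (Ω := Ω ∩ orth (k + 1) ∩ O) (P := Ω ∩ orth (k + 1)) ((hΩo.inter (isOpen_orth _)).inter (isOpen_Om k w0 _))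
        hne (hΩo.inter (isOpen_orth _)) (hΩc.inter (convex_orth _)) inter_subset_left
        (f := G1) (g := fun z => S k M z * P k z) (hG1t.1.mono fun z hz => hz.1) (hSorth.1.mono fun z hz => hz.2)
        (fun z hz => heO ⟨hz.1.1, hz.2⟩)
      exact h3 ⟨hz.1, hz2⟩
  obtain ⟨g, hg, hg₁, hg₂⟩ := tempered_glue hΩo hOo hG1t hg1 he2
  set xU : Fin (k + 1) → ℝ := Fin.cons (max β' w0 + 1) s0 with hxU
  have hxU1 : xU ∈ Ω := by
    refine ⟨?_, fun j => ?_⟩
    · simp only [hxU, Fin.cons_zero]
      have := le_max_left β' w0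
      linarith
    · simp only [hxU, Fin.cons_succ, sub_self, abs_zero]
      exact hη'0
  have hxU2 : xU ∈ O := by
    refine ⟨?_, fun j => ?_⟩
    · simp only [hxU, Fin.cons_zero]
      have := le_max_right β' w0
      linarith
    · simp only [hxU, Fin.cons_succ]
      linarith [hεs j]
  refine ⟨Ω ∪ (O ∪ orth (k + 1)), hΩo.union hOo, ⟨⟨xU, Or.inl hxU1⟩, ?_⟩,
    (subset_union_right (s := O)).trans subset_union_right, Or.inl ⟨?_, fun j => ?_⟩, g, hg, fun z hz => ?_⟩
  · set x0 : Fin (k + 1) → ℝ := fun _ => w0 + 1 + ε with hx0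
    have hx1 : x0 ∈ O := ⟨by show w0 < w0 + 1 + ε; linarith, fun j => by show 1 / 2 - (1 / 2 - ε) < w0 + 1 + ε; linarith⟩
    have hx2 : x0 ∈ orth (k + 1) := fun i => by show 1 < w0 + 1 + ε; linarith
    have hc1 : IsPreconnected (O ∪ orth (k + 1)) :=
      IsPreconnected.union x0 hx1 hx2 (convex_Om k w0 _).isPreconnected (convex_orth _).isPreconnected
    exact IsPreconnected.union xU hxU1 (Or.inl hxU2) hΩc.isPreconnected hc1
  · simpa using hβ
  · simp only [Fin.cons_succ, sub_self, abs_zero]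
    exact hη'0
  · rw [hg₂ (show z ∈ tube (O ∪ orth (k + 1)) from Or.inr hz), e2 hz, F_eq hz]

end Pool.Agent.L5helper17.RF
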