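import Pool.Agent.L5helper17.RF.Dom

/-!
# The criterion: one point of a half-space
-/

set_option autoImplicit false

namespace Pool.Agent.L5helper17.RF

open Complex Filter Topology MeasureTheory Set
open Pool.Agent.Q48.MDS

variable {k : ℕ}

/-- the height of a point: `w + (1/2) ∑ (s_j - 1/2)` -/
noncomputable def ht (p : Fin (k + 1) → ℝ) : ℝ := p 0 + 1 / 2 * ∑ j : Fin k, (p j.succ - 1 / 2)

/-- some of the variables moved to `1/2` -/
noncomputable def mp (J : Finset (Fin k)) (p : Fin (k + 1) → ℝ) : Fin (k + 1) → ℝ :=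
  Fin.cons (p 0 + 1 / 2 * ∑ j ∈ J, (p j.succ - 1 / 2)) (fun j => if j ∈ J then 1 / 2 else p j.succ)

theorem continuesTo_mp {M : ℕ} {p : Fin (k + 1) → ℝ} (h : ContinuesTo k M p) {J : Finset (Fin k)}
    (hp : ∀ j ∈ J, 0 < p j.succ) : ContinuesTo k M (mp J p) := by
  classical
  induction J using Finset.induction_on with
  | empty =>
    have : mp (∅ : Finset (Fin k)) p = p := by
      funext i
      refine Fin.cases ?_ (fun j => ?_) i <;> simp [mp]
    rw [this]
    exact h
  | insert a J ha ih =>
    have h1 := ih fun j hj => hp j (Finset.mem_insert_of_mem hj)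
    have h2 : (mp J p) a.succ = p a.succ := by simp [mp, ha]
    have h3 := continuesTo_rf h1 (J := {a}) (by
      intro j hj
      rw [Finset.mem_singleton] at hj
      subst hj
      rw [h2]
      exact hp j (Finset.mem_insert_self j J))
    have h4 := convex_continuesTo k M h1 h3 (by norm_num : (0 : ℝ) ≤ 1 / 2) (by norm_num : (0 : ℝ) ≤ 1 / 2)
      (by norm_num)
    have h5 : (1 / 2 : ℝ) • mp J p + (1 / 2 : ℝ) • rf {a} (mp J p) = mp (insert a J) p := by
      funext i
      refine Fin.cases ?_ (fun j => ?_) i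
      · simp only [Pi.add_apply, Pi.smul_apply, smul_eq_mul, rf_zero, Finset.sum_singleton, h2]
        simp only [mp, Fin.cons_zero, Finset.sum_insert ha]
        ring
      · simp only [Pi.add_apply, Pi.smul_apply, smul_eq_mul]
        by_cases hj : j = a
        · subst hj
          rw [rf_mem (Finset.mem_singleton_self j), h2]
          simp only [mp, Fin.cons_succ, Finset.mem_insert_self, if_true]
          ring
        · rw [rf_notMem (by simpa using hj)]
          simp only [mp, Fin.cons_succ, Finset.mem_insert, hj, false_or]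
          split_ifs <;> ring
    rw [← h5]
    exact h4

lemma mp_univ (p : Fin (k + 1) → ℝ) : mp Finset.univ p = Fin.cons (ht p) (fun _ => 1 / 2) := by
  funext i
  refine Fin.cases ?_ (fun j => ?_) i <;> simp [mp, ht]

/-- every point of continuation gives a point of the line `s_1 = ... = s_k = 1/2` -/
theorem continuesTo_line {M : ℕ} {p : Fin (k + 1) → ℝ} (h : ContinuesTo k M p) (hp : ∀ j : Fin k, 0 < p j.succ)
    {w : ℝ} (hw : ht p ≤ w) : ContinuesTo k M (Fin.cons w (fun _ => 1 / 2)) := by
  have h1 := continuesTo_mp h (J := Finset.univ) fun j _ => hp j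
  rw [mp_univ] at h1
  refine h1.up fun i => ?_
  refine Fin.cases ?_ (fun j => ?_) i
  · simpa using hw
  · simp

lemma ht_line (w : ℝ) : ht (Fin.cons w (fun _ => 1 / 2) : Fin (k + 1) → ℝ) = w := by
  simp [ht]

theorem line_iff (M : ℕ) (w : ℝ) : ContinuesTo k M (Fin.cons w (fun _ => 1 / 2)) ↔
    ∃ p : Fin (k + 1) → ℝ, (∀ j : Fin k, 0 < p j.succ) ∧ ht p ≤ w ∧ ContinuesTo k M p := by
  constructor
  · intro h
    exact ⟨_, fun j => by simp, (ht_line w).le, h⟩
  · rintro ⟨p, hp, hw, h⟩
    exact continuesTo_line h hp hw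

end Pool.Agent.L5helper17.RF
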