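import Pool.Agent.L5helper17.RF.Refl

/-!
# The reflections act on the points of continuation
-/

set_option autoImplicit false

namespace Pool.Agent.L5helper17.RF

open Complex Filter Topology MeasureTheory Set
open Pool.Agent.Q48.MDS
open Pool.Agent.L5helper5.LE (Lx Lx_def S P tm P_diff Om isOpen_Om convex_Om convex_orth HB im1 im1_ge im1_le F_eq
  tempered_SP half_bound LBx_one tm_bound_Om S_of_bound)

variable {k : ℕ}

/-- the series in a half-space far to the right -/
lemma exists_far (k M : ℕ) : ∃ w0 : ℝ, ∀ w : ℝ, w0 ≤ w → Tempered (Om k w (1 / 4)) (fun z => S k M z * P k z) ∧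
    Tempered (orth (k + 1)) (fun z => S k M z * P k z) := by
  obtain ⟨C, N, hC, hb⟩ := half_bound zero_le_one LBx_one (δ := 1 / 4) (by norm_num) le_rfl
  have hk0 : (0 : ℝ) ≤ k := Nat.cast_nonneg k
  refine ⟨1 + k * (1 + 4 * (1 / 4)) + 1, fun w hw => tempered_SP hC.le (b := 1 + 4 * (1 / 4)) hb (by linarith)⟩

/-- the domain of a continuation may be enlarged by a far half-space -/
theorem big_domain {M : ℕ} {p : Fin (k + 1) → ℝ} (h : ContinuesTo k M p) {w0 : ℝ}
    (hS : Tempered (Om k w0 (1 / 4)) (fun z => S k M z * P k z)) :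
    ∃ W : Set (Fin (k + 1) → ℝ), IsOpen W ∧ Convex ℝ W ∧ orth (k + 1) ⊆ W ∧ Om k w0 (1 / 4) ⊆ W ∧ p ∈ W ∧
      ∃ G : (Fin (k + 1) → ℂ) → ℂ, Tempered W G ∧ EqOn G (fun z => S k M z * P k z) (tube (Om k w0 (1 / 4))) ∧
        EqOn G (F k M) (tube (orth (k + 1))) := by
  obtain ⟨Ω, hΩo, hΩc, hsub, hpΩ, G₀, hG₀, hGeq⟩ := h
  obtain ⟨G, hG, hGG⟩ := bochner hΩo hΩc hG₀
  have hW : Ω ⊆ convexHull ℝ Ω := subset_convexHull ℝ Ω
  set W₁ := convexHull ℝ Ω with hW₁
  have ho₁ : IsOpen W₁ := hΩo.convexHull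
  have hc₁ : Convex ℝ W₁ := convex_convexHull ℝ Ω
  set O := Om k w0 (1 / 4) with hO
  have hOo : IsOpen O := isOpen_Om k w0 _
  have hOc : Convex ℝ O := convex_Om k w0 _
  -- a common point
  set x0 : Fin (k + 1) → ℝ := fun _ => max w0 1 + 1 with hx0
  have hx1 : x0 ∈ O := by
    refine ⟨?_, fun j => ?_⟩
    · have := le_max_left w0 1
      show w0 < max w0 1 + 1
      linarith
    · have := le_max_right w0 1
      show 1 / 2 - 1 / 4 < max w0 1 + 1
      linarith
  have hx2 : x0 ∈ orth (k + 1) := by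
    intro i
    have := le_max_right w0 1
    show 1 < max w0 1 + 1
    linarith
  have he : EqOn G (fun z => S k M z * P k z) (tube (W₁ ∩ O)) := by
    refine eqOn_tube (Ω := orth (k + 1) ∩ O) ((isOpen_orth _).inter hOo) ⟨x0, hx2, hx1⟩ (ho₁.inter hOo)
      (hc₁.inter hOc) (inter_subset_inter (hsub.trans hW) subset_rfl)
      (hG.1.mono fun z hz => hz.1) (hS.1.mono fun z hz => hz.2) (fun z hz => ?_)
    have hz1 : z ∈ tube (orth (k + 1)) := hz.1
    rw [hGG (hsub hz1), hGeq hz1, F_eq hz1]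
  obtain ⟨g, hg, hg₁, hg₂⟩ := tempered_glue ho₁ hOo hG hS he
  have hconn : IsConnected (W₁ ∪ O) := by
    refine ⟨⟨p, Or.inl (hW hpΩ)⟩, ?_⟩
    exact IsPreconnected.union x0 (hW (hsub hx2)) hx1 hc₁.isPreconnected hOc.isPreconnected
  obtain ⟨g', hg', hgg'⟩ := bochner (ho₁.union hOo) hconn hg
  have hWW : W₁ ∪ O ⊆ convexHull ℝ (W₁ ∪ O) := subset_convexHull ℝ _
  refine ⟨convexHull ℝ (W₁ ∪ O), (ho₁.union hOo).convexHull, convex_convexHull ℝ _,
    ((hsub.trans hW).trans subset_union_left).trans hWW, subset_union_right.trans hWW, hWW (Or.inl (hW hpΩ)),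
    g', hg', fun z hz => ?_, fun z hz => ?_⟩
  · rw [hgg' (show z ∈ tube (W₁ ∪ O) from Or.inr hz), hg₂ hz]
  · rw [hgg' (show z ∈ tube (W₁ ∪ O) from Or.inl (hW (hsub hz))), hg₁ (hW (hsub hz)), hGG (hsub hz), hGeq hz]

lemma im1_rf (J : Finset (Fin k)) (z : Fin (k + 1) → ℂ) : im1 (rf J z) ≤ (k + 2) * im1 z := by
  have h0 := im1_ge z
  have hk0 : (0 : ℝ) ≤ k := Nat.cast_nonneg k
  have h1 : ∀ i, |(z i).im| ≤ im1 z := fun i => by linarith [im1_le z i]
  have h2 : ‖fun i => (rf J z i).im‖ ≤ (k + 1) * im1 z := by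
    rw [pi_norm_le_iff_of_nonneg (by positivity)]
    intro i
    rw [Real.norm_eq_abs]
    refine Fin.cases ?_ (fun j => ?_) i
    · rw [rf_zero]
      have h3 : (z 0 + ∑ j ∈ J, (z j.succ - 1 / 2)).im = (z 0).im + ∑ j ∈ J, (z j.succ).im := by
        simp
      rw [h3]
      have h4 : |∑ j ∈ J, (z j.succ).im| ≤ ∑ j ∈ J, |(z j.succ).im| := Finset.abs_sum_le_sum_abs _ _
      have h5 : ∑ j ∈ J, |(z j.succ).im| ≤ ∑ _j ∈ J, im1 z := Finset.sum_le_sum fun j _ => h1 j.succ
      rw [Finset.sum_const, nsmul_eq_mul] at h5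
      have h6 : (J.card : ℝ) ≤ k := by
        have := Finset.card_le_univ J
        rw [Fintype.card_fin] at this
        exact_mod_cast this
      calc |(z 0).im + ∑ j ∈ J, (z j.succ).im| ≤ |(z 0).im| + |∑ j ∈ J, (z j.succ).im| := abs_add_le _ _
        _ ≤ im1 z + k * im1 z := by
            refine add_le_add (h1 0) (h4.trans (h5.trans ?_))
            exact mul_le_mul_of_nonneg_right h6 (by linarith)
        _ = (k + 1) * im1 z := by ring
    · have h3 : |(rf J z j.succ).im| = |(z j.succ).im| := by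
        by_cases hj : j ∈ J
        · rw [rf_mem hj]; simp
        · rw [rf_notMem hj]
      rw [h3]
      nlinarith [h1 j.succ]
  unfold im1
  unfold im1 at h2 h0
  linarith

lemma diffOn_prod {ι : Type*} {n : ℕ} {U : Set (Fin n → ℂ)} (J : Finset ι) (f : ι → (Fin n → ℂ) → ℂ)
    (h : ∀ j ∈ J, DifferentiableOn ℂ (f j) U) : DifferentiableOn ℂ (fun z => ∏ j ∈ J, f j z) U := by
  classical
  induction J using Finset.induction_on with
  | empty => simp only [Finset.prod_empty]; exact differentiableOn_const 1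
  | insert a s ha ih =>
    simp only [Finset.prod_insert ha]
    exact (h a (Finset.mem_insert_self a s)).mul (ih fun j hj => h j (Finset.mem_insert_of_mem hj))

/-- **the reflections act on the points of continuation** -/
theorem continuesTo_rf {M : ℕ} {p : Fin (k + 1) → ℝ} (h : ContinuesTo k M p) {J : Finset (Fin k)}
    (hp : ∀ j ∈ J, 0 < p j.succ) : ContinuesTo k M (rf J p) := by
  classical
  obtain ⟨w1, hw1⟩ := exists_far k M
  set w0 : ℝ := max w1 1 with hw0
  obtain ⟨hSO, hSorth⟩ := hw1 w0 (le_max_left _ _)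
  obtain ⟨W, hWo, hWc, hWorth, hWO, hpW, G, hG, hGO, hGorth⟩ := big_domain h hSO
  have hk0 : (0 : ℝ) ≤ k := Nat.cast_nonneg k
  -- the reflected domain
  set H : Set (Fin (k + 1) → ℝ) := {x | ∀ j ∈ J, x j.succ < 1} with hH
  have hHo : IsOpen H := by
    have : H = ⋂ j ∈ J, {x : Fin (k + 1) → ℝ | x j.succ < 1} := by ext x; simp [hH]
    rw [this]
    exact isOpen_biInter_finset fun j _ => isOpen_lt (continuous_apply _) continuous_const
  have hHc : Convex ℝ H := by
    intro x hx y hy a b ha hb hab j hj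
    have h1 : x j.succ < 1 := hx j hj
    have h2 : y j.succ < 1 := hy j hj
    show a * x j.succ + b * y j.succ < 1
    rcases eq_or_lt_of_le ha with h | h
    · subst h
      have : b = 1 := by linarith
      subst this; linarith
    · nlinarith [mul_pos h (sub_pos.2 h1), mul_nonneg hb (sub_nonneg.2 h2.le)]
  set W' : Set (Fin (k + 1) → ℝ) := rf J ⁻¹' W ∩ H with hW'
  have hW'o : IsOpen W' := (hWo.preimage (rf_cont J)).inter hHo
  have hW'c : Convex ℝ W' := by
    refine Convex.inter ?_ hHc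
    intro x hx y hy a b ha hb hab
    show rf J (a • x + b • y) ∈ W
    rw [rf_comb J x y hab]
    exact hWc hx hy ha hb hab
  -- the function on it
  set G' : (Fin (k + 1) → ℂ) → ℂ := fun z => (∏ j ∈ J, gr (z j.succ)) * G (rf J z) with hG'
  have hmaps : ∀ z ∈ tube W', rf J z ∈ tube W := by
    intro z hz
    show (fun i => (rf J z i).re) ∈ W
    rw [rf_re]
    exact hz.1
  have hlt : ∀ z ∈ tube W', ∀ j ∈ J, (z j.succ).re < 1 := fun z hz => hz.2
  have hG't : Tempered W' G' := by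
    constructor
    · have h1 : DifferentiableOn ℂ (fun z => G (rf J z)) (tube W') :=
        hG.1.comp (rf_differentiable J).differentiableOn hmaps
      have h2 : DifferentiableOn ℂ (fun z : Fin (k + 1) → ℂ => ∏ j ∈ J, gr (z j.succ)) (tube W') := by
        refine diffOn_prod J (fun j (z : Fin (k + 1) → ℂ) => gr (z j.succ)) fun j hj => ?_
        exact gr_diff.comp (differentiable_apply _).differentiableOn fun z hz => hlt z hz j hj
      exact h2.mul h1
    · intro K hK hc
      obtain ⟨C, N, hb⟩ := hG.2 (rf J '' K) (by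
        rintro _ ⟨x, hx, rfl⟩
        exact (hK hx).1) (hc.image (rf_cont J))
      have hgr : ∀ j ∈ J, ∃ (C : ℝ) (N : ℕ), 0 ≤ C ∧ ∀ z : Fin (k + 1) → ℂ, (fun i => (z i).re) ∈ K →
          ‖gr (z j.succ)‖ ≤ C * im1 z ^ N := by
        intro j hj
        rcases K.eq_empty_or_nonempty with rfl | hne
        · exact ⟨0, 0, le_rfl, fun z hz => absurd hz (notMem_empty _)⟩
        obtain ⟨xa, hxa, hmin⟩ := hc.exists_isMinOn hne (continuous_apply j.succ).continuousOn
        obtain ⟨xb, hxb, hmax⟩ := hc.exists_isMaxOn hne (continuous_apply j.succ).continuousOn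
        obtain ⟨C, N, hC, hg⟩ := gr_bound (a := xa j.succ) (b := xb j.succ) ((hK hxb).2 j hj)
        refine ⟨C, N, hC, fun z hz => (hg _ (hmin hz) (hmax hz)).trans ?_⟩
        exact mul_le_mul_of_nonneg_left (pow_le_pow_left₀ (by positivity) (im1_le z j.succ) N) hC
      choose! Cj Nj hCj hgj using hgr
      refine ⟨(∏ j ∈ J, Cj j) * (|C| * (k + 2) ^ N), ∑ j ∈ J, Nj j + N, fun z hz => ?_⟩
      have h1 : ‖G (rf J z)‖ ≤ |C| * ((k + 2) * im1 z) ^ N := by
        have h2 := hb (rf J z) ⟨_, hz, (rf_re J z).symm⟩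
        refine h2.trans ?_
        have h3 : 1 + ‖fun i => (rf J z i).im‖ ≤ (k + 2) * im1 z := im1_rf J z
        calc C * (1 + ‖fun i => (rf J z i).im‖) ^ N ≤ |C| * (1 + ‖fun i => (rf J z i).im‖) ^ N :=
              mul_le_mul_of_nonneg_right (le_abs_self C) (by positivity)
          _ ≤ |C| * ((k + 2) * im1 z) ^ N :=
              mul_le_mul_of_nonneg_left (pow_le_pow_left₀ (by positivity) h3 N) (abs_nonneg C)
      have h4 : ‖∏ j ∈ J, gr (z j.succ)‖ ≤ ∏ j ∈ J, (Cj j * im1 z ^ Nj j) := by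
        rw [norm_prod]
        exact Finset.prod_le_prod (fun j _ => norm_nonneg _) fun j hj => hgj j hj z hz
      rw [Finset.prod_mul_distrib, Finset.prod_pow_eq_pow_sum] at h4
      show ‖G' z‖ ≤ _ * im1 z ^ _
      rw [hG']
      simp only
      rw [norm_mul]
      have h0 := im1_ge z
      calc ‖∏ j ∈ J, gr (z j.succ)‖ * ‖G (rf J z)‖
          ≤ ((∏ j ∈ J, Cj j) * im1 z ^ (∑ j ∈ J, Nj j)) * (|C| * ((k + 2) * im1 z) ^ N) := by
            refine mul_le_mul h4 h1 (norm_nonneg _) ?_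
            have : 0 ≤ ∏ j ∈ J, Cj j := Finset.prod_nonneg hCj
            positivity
        _ = _ := by rw [mul_pow, pow_add]; ring
  -- agreement far to the right
  set O := Om k w0 (1 / 4) with hO
  set U : Set (Fin (k + 1) → ℝ) := {x | w0 + k < x 0 ∧ ∀ j : Fin k, 1 / 2 - 1 / 4 < x j.succ ∧ x j.succ < 1 / 2 + 1 / 4} with hU
  have hUo : IsOpen U := by
    have : U = {x | w0 + k < x 0} ∩ ⋂ j : Fin k, ({x : Fin (k + 1) → ℝ | 1 / 2 - 1 / 4 < x j.succ} ∩ {x | x j.succ < 1 / 2 + 1 / 4}) := by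
      ext x; simp [hU]
    rw [this]
    exact (isOpen_lt continuous_const (continuous_apply 0)).inter
      (isOpen_iInter_of_finite fun j => (isOpen_lt continuous_const (continuous_apply _)).inter
        (isOpen_lt (continuous_apply _) continuous_const))
  have hUO : ∀ x ∈ U, rf J x ∈ O := by
    intro x hx
    refine ⟨?_, fun j => ?_⟩
    · rw [rf_zero]
      have h1 : ∑ _j ∈ J, (-(1 / 4) : ℝ) ≤ ∑ j ∈ J, (x j.succ - 1 / 2) :=
        Finset.sum_le_sum fun j _ => by linarith [(hx.2 j).1]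
      rw [Finset.sum_const, nsmul_eq_mul] at h1
      have h2 : (J.card : ℝ) ≤ k := by
        have := Finset.card_le_univ J
        rw [Fintype.card_fin] at this
        exact_mod_cast this
      have h3 : w0 + k < x 0 := hx.1
      nlinarith
    · by_cases hj : j ∈ J
      · rw [rf_mem hj]; linarith [(hx.2 j).2]
      · rw [rf_notMem hj]; exact (hx.2 j).1
  have hUO' : U ⊆ O := fun x hx => ⟨by have : w0 + k < x 0 := hx.1
                                       linarith, fun j => (hx.2 j).1⟩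
  have hUW' : U ⊆ W' := fun x hx => ⟨hWO (hUO x hx), fun j _ => by linarith [(hx.2 j).2]⟩
  have hUne : U.Nonempty := by
    refine ⟨Fin.cons (w0 + k + 1) (fun _ => 1 / 2), ?_, fun j => ?_⟩
    · simp
    · simp only [Fin.cons_succ]; norm_num
  have hSO' : DifferentiableOn ℂ (fun z => S k M z * P k z) (tube O) := hSO.1
  have he : EqOn G' (fun z => S k M z * P k z) (tube (W' ∩ O)) := by
    refine eqOn_tube (Ω := U) hUo hUne (hW'o.inter (isOpen_Om k w0 _)) (hW'c.inter (convex_Om k w0 _))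
      (subset_inter hUW' hUO') (hG't.1.mono fun z hz => hz.1) (hSO'.mono fun z hz => hz.2) (fun z hz => ?_)
    have h1 : rf J z ∈ tube O := by
      show (fun i => (rf J z i).re) ∈ O
      rw [rf_re]
      exact hUO _ hz
    have h2 : ∀ j ∈ J, (z j.succ).re < 1 := hlt z (hUW' hz)
    show (∏ j ∈ J, gr (z j.succ)) * G (rf J z) = S k M z * P k z
    have h3 : G (rf J z) = S k M (rf J z) * P k (rf J z) := hGO h1
    rw [h3, S_rf M h2, P_rf]
    ring
  -- gluing
  obtain ⟨g1, hg1, e1, e2⟩ := tempered_glue (isOpen_Om k w0 (1 / 4)) (isOpen_orth (k + 1)) hSO hSorth (fun _ _ => rfl)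
  have hOo : IsOpen (O ∪ orth (k + 1)) := (isOpen_Om k w0 _).union (isOpen_orth _)
  rcases J.eq_empty_or_nonempty with rfl | ⟨j0, hj0⟩
  · have : rf (∅ : Finset (Fin k)) p = p := by
      funext i
      refine Fin.cases ?_ (fun j => ?_) i
      · rw [rf_zero]; simp
      · rw [rf_notMem (Finset.notMem_empty j)]
    rw [this]
    exact h
  have he2 : EqOn G' g1 (tube (W' ∩ (O ∪ orth (k + 1)))) := by
    intro z hz
    have hz2 : (fun i => (z i).re) ∈ O ∪ orth (k + 1) := hz.2
    rcases hz2 with hz2 | hz2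
    · rw [e1 hz2]
      exact he ⟨hz.1, hz2⟩
    · exfalso
      have h1 : (z j0.succ).re < 1 := hlt z hz.1 j0 hj0
      have h2 : 1 < (z j0.succ).re := hz2 j0.succ
      linarith
  obtain ⟨g, hg, hg₁, hg₂⟩ := tempered_glue hW'o hOo hG't hg1 he2
  obtain ⟨xU, hxU⟩ := hUne
  refine ⟨W' ∪ (O ∪ orth (k + 1)), hW'o.union hOo, ⟨⟨xU, Or.inl (hUW' hxU)⟩, ?_⟩,
    (subset_union_right (s := O)).trans subset_union_right, Or.inl ⟨?_, fun j hj => ?_⟩, g, hg, fun z hz => ?_⟩
  · set x0 : Fin (k + 1) → ℝ := fun _ => w0 + 1 with hx0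
    have hw01 : 1 ≤ w0 := le_max_right _ _
    have hx1 : x0 ∈ O := ⟨by show w0 < w0 + 1; linarith, fun j => by show 1 / 2 - 1 / 4 < w0 + 1; linarith⟩
    have hx2 : x0 ∈ orth (k + 1) := fun i => by show 1 < w0 + 1; linarith
    have hc1 : IsPreconnected (O ∪ orth (k + 1)) :=
      IsPreconnected.union x0 hx1 hx2 (convex_Om k w0 _).isPreconnected (convex_orth _).isPreconnected
    exact IsPreconnected.union xU (hUW' hxU) (Or.inl (hUO' hxU)) hW'c.isPreconnected hc1
  · show rf J (rf J p) ∈ W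
    rw [rf_rf]
    exact hpW
  · rw [rf_mem hj]
    linarith [hp j hj]
  · rw [hg₂ (show z ∈ tube (O ∪ orth (k + 1)) from Or.inr hz), e2 hz, F_eq hz]

end Pool.Agent.L5helper17.RF
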