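import Pool.Agent.L5helper17.RF.Mel2
import Pool.Agent.L5helper5.LE.Landau

/-!
# The far region over all `s` with positive real parts
-/

set_option autoImplicit false

namespace Pool.Agent.L5helper17.RF

open Complex Filter Topology MeasureTheory Set
open Pool.Agent.Q48.MDS
open Pool.Agent.L5helper5.LE (Lx Lx_def Lx_diff S P tm P_diff Om isOpen_Om convex_Om convex_orth HB im1 im1_ge im1_le F_eq
  tempered_SP Lx_int sum_bound norm_fI_le integrable_b fI Lx_le_two tm_bound_Om)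

lemma crude_eps {ε : ℝ} (hε : 0 < ε) : ∃ B : ℝ, 0 ≤ B ∧ HB (1 / 2 - ε) 1 B 1 := by
  obtain ⟨C, hC, h⟩ := sum_bound
  have hZ := Zc_nonneg 2
  refine ⟨2 * (C / ε) + Zc 2, by positivity, fun d hd h1 s hs => ?_⟩
  have hd1 : (1 : ℝ) ≤ d := by exact_mod_cast h1.le
  rw [Real.rpow_one, pow_one]
  have him := abs_nonneg s.im
  have hs' : ε ≤ s.re := by linarith
  have hCε : 0 < C / ε := by positivity
  rcases le_total s.re 2 with h2 | h2
  · have h3 : ‖Lx d s‖ ≤ C / ε * d * ‖s‖ := by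
      rw [Lx_int hd h1 (by linarith), norm_mul]
      have h4 : ‖∫ t, fI d (fun _ => s) t‖ ≤ C * d / ε := by
        have h5 := norm_integral_le_of_norm_le (integrable_b C d hε)
          (Eventually.of_forall fun t => norm_fI_le hC (h d hd h1) (fun _ => s) hs' t)
        refine h5.trans (le_of_eq ?_)
        rw [integral_indicator measurableSet_Ioi, integral_const_mul, integral_Ioi_rpow_of_lt (by linarith) one_pos,
          Real.one_rpow]
        have e1 : -ε - 1 + 1 = -ε := by ring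
        rw [e1]
        field_simp
      calc ‖s‖ * ‖∫ t, fI d (fun _ => s) t‖ ≤ ‖s‖ * (C * d / ε) := mul_le_mul_of_nonneg_left h4 (norm_nonneg _)
        _ = C / ε * d * ‖s‖ := by ring
    have h4 := Complex.norm_le_abs_re_add_abs_im s
    rw [abs_of_nonneg (by linarith : 0 ≤ s.re)] at h4
    have h5 : ‖s‖ ≤ 2 * (1 + |s.im|) := by linarith
    calc ‖Lx d s‖ ≤ C / ε * d * ‖s‖ := h3
      _ ≤ C / ε * d * (2 * (1 + |s.im|)) := mul_le_mul_of_nonneg_left h5 (by positivity)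
      _ = 2 * (C / ε) * d * (1 + |s.im|) := by ring
      _ ≤ (2 * (C / ε) + Zc 2) * d * (1 + |s.im|) := by
          refine mul_le_mul_of_nonneg_right (mul_le_mul_of_nonneg_right ?_ (by linarith)) (by linarith)
          linarith
  · refine (Lx_le_two hd h1 h2).trans ?_
    calc Zc 2 = Zc 2 * 1 * 1 := by ring
      _ ≤ (2 * (C / ε) + Zc 2) * d * (1 + |s.im|) := by
          refine mul_le_mul (mul_le_mul ?_ hd1 zero_le_one (by positivity)) ?_ zero_le_one (by positivity)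
          · linarith
          · linarith

/-- the far region -/
lemma exists_far' (k M : ℕ) {ε : ℝ} (hε : 0 < ε) : ∃ w0 : ℝ, 1 ≤ w0 ∧
    Tempered (Om k w0 (1 / 2 - ε)) (fun z => S k M z * P k z) ∧
    Tempered (orth (k + 1)) (fun z => S k M z * P k z) ∧
    ∀ z ∈ tube (Om k w0 (1 / 2 - ε)), Summable fun d => ‖tm k M d z‖ := by
  obtain ⟨B, hB, hb⟩ := crude_eps hε
  have hk0 : (0 : ℝ) ≤ k := Nat.cast_nonneg k
  have h1 := tempered_SP (M := M) hB hb (w := 1 + k * 1 + 1) (by linarith)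
  refine ⟨1 + k * 1 + 1, by linarith, h1.1, h1.2, fun z hz => ?_⟩
  have h2 : Summable fun d : ℕ => (d : ℝ) ^ (-(2 : ℝ)) := Real.summable_nat_rpow.2 (by norm_num)
  refine Summable.of_nonneg_of_le (fun d => norm_nonneg _) (fun d => tm_bound_Om hB hb hz d) ?_
  refine Summable.mul_right _ (Summable.mul_left _ ?_)
  refine h2.congr fun d => ?_
  congr 1
  ring

/-- the domain of a continuation may be enlarged by a far half-space -/
theorem big_domain' {k M : ℕ} {p : Fin (k + 1) → ℝ} (h : ContinuesTo k M p) {w0 δ : ℝ} (hδ : 0 ≤ δ + 1)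
    (hS : Tempered (Om k w0 δ) (fun z => S k M z * P k z)) :
    ∃ W : Set (Fin (k + 1) → ℝ), IsOpen W ∧ Convex ℝ W ∧ orth (k + 1) ⊆ W ∧ Om k w0 δ ⊆ W ∧ p ∈ W ∧
      ∃ G : (Fin (k + 1) → ℂ) → ℂ, Tempered W G ∧ EqOn G (fun z => S k M z * P k z) (tube (Om k w0 δ)) ∧
        EqOn G (F k M) (tube (orth (k + 1))) := by
  obtain ⟨Ω, hΩo, hΩc, hsub, hpΩ, G₀, hG₀, hGeq⟩ := h
  obtain ⟨G, hG, hGG⟩ := bochner hΩo hΩc hG₀
  have hW : Ω ⊆ convexHull ℝ Ω := subset_convexHull ℝ Ω
  set W₁ := convexHull ℝ Ω with hW₁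
  have ho₁ : IsOpen W₁ := hΩo.convexHull
  have hc₁ : Convex ℝ W₁ := convex_convexHull ℝ Ω
  set O := Om k w0 δ with hO
  have hOo : IsOpen O := isOpen_Om k w0 _
  have hOc : Convex ℝ O := convex_Om k w0 _
  -- a common point
  set x0 : Fin (k + 1) → ℝ := fun _ => max w0 1 + 1 with hx0
  have hx1 : x0 ∈ O := by
    refine ⟨?_, fun j => ?_⟩
    · have := le_max_left w0 1
      show w0 < max w0 1 + 1
      linarith
    · have := le_max_right w0 1
      show 1 / 2 - δ < max w0 1 + 1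
      linarith
  have hx2 : x0 ∈ orth (k + 1) := by
    intro i
    have := le_max_right w0 1
    show 1 < max w0 1 + 1
    linarith
  have he : EqOn G (fun z => S k M z * P k z) (tube (W₁ ∩ O)) := by
    refine eqOn_tube (Ω := orth (k + 1) ∩ O) ((isOpen_orth _).inter hOo) ⟨x0, hx2, hx1⟩ (ho₁.inter hOo)
      (hc₁.inter hOc) (inter_subset_inter (hsub.trans hW) subset_rfl)
      (hG.1.mono fun z hz => hz.1) (hS.1.mono fun z hz => hz.2) (fun z hz => ?_)
    have hz1 : z ∈ tube (orth (k + 1)) := hz.1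
    rw [hGG (hsub hz1), hGeq hz1, F_eq hz1]
  obtain ⟨g, hg, hg₁, hg₂⟩ := tempered_glue ho₁ hOo hG hS he
  have hconn : IsConnected (W₁ ∪ O) := by
    refine ⟨⟨p, Or.inl (hW hpΩ)⟩, ?_⟩
    exact IsPreconnected.union x0 (hW (hsub hx2)) hx1 hc₁.isPreconnected hOc.isPreconnected
  obtain ⟨g', hg', hgg'⟩ := bochner (ho₁.union hOo) hconn hg
  have hWW : W₁ ∪ O ⊆ convexHull ℝ (W₁ ∪ O) := subset_convexHull ℝ _
  refine ⟨convexHull ℝ (W₁ ∪ O), (ho₁.union hOo).convexHull, convex_convexHull ℝ _,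
    ((hsub.trans hW).trans subset_union_left).trans hWW, subset_union_right.trans hWW, hWW (Or.inl (hW hpΩ)),
    g', hg', fun z hz => ?_, fun z hz => ?_⟩
  · rw [hgg' (show z ∈ tube (W₁ ∪ O) from Or.inr hz), hg₂ hz]
  · rw [hgg' (show z ∈ tube (W₁ ∪ O) from Or.inl (hW (hsub hz))), hg₁ (hW (hsub hz)), hGG (hsub hz), hGeq hz]

end Pool.Agent.L5helper17.RF
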