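import Pool.Agent.L5helper17.RF.Far
import Pool.Agent.Helper368_LD.Shift

/-!
# From the continuation to the bounds for the weighted moments
-/

set_option autoImplicit false

namespace Pool.Agent.L5helper17.RF

open Complex Filter Topology MeasureTheory Set
open Pool.Agent.Q48.MDS
open Pool.Agent.Helper368_LD (vline_integrable vline_shift integrable_one_add_abs)
open Pool.Agent.L5helper5.LE (Lx Lx_def Lx_diff S P tm P_diff Om isOpen_Om convex_Om convex_orth HB im1 im1_ge im1_le F_eq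
  tempered_SP)

variable {k : ℕ}

lemma dn_lower (m : ℕ) {b : ℝ} (hb : 0 < b) {w : ℂ} (hw : b ≤ w.re) :
    ((1 + |w.im|) / (1 + b⁻¹)) ^ (m + 1) ≤ ‖dn m w‖ := by
  unfold dn
  rw [norm_prod]
  have h0 : ∀ i : ℕ, (1 + |w.im|) / (1 + b⁻¹) ≤ ‖w + (i : ℂ)‖ := by
    intro i
    have hi : (0 : ℝ) ≤ i := Nat.cast_nonneg i
    have h1 := Complex.re_le_norm (w + (i : ℂ))
    have h2 := Complex.abs_im_le_norm (w + (i : ℂ))
    simp only [add_re, natCast_re, add_im, natCast_im, add_zero] at h1 h2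
    have h3 : b ≤ ‖w + (i : ℂ)‖ := by linarith
    have hb' : 0 < b⁻¹ := inv_pos.2 hb
    rw [div_le_iff₀ (by positivity)]
    have h4 : 1 ≤ ‖w + (i : ℂ)‖ * b⁻¹ := by
      rw [← div_eq_mul_inv, le_div_iff₀ hb]
      linarith
    linarith
  have hb' : 0 < b⁻¹ := inv_pos.2 hb
  calc ((1 + |w.im|) / (1 + b⁻¹)) ^ (m + 1) = ∏ _i ∈ Finset.range (m + 1), (1 + |w.im|) / (1 + b⁻¹) := by
        rw [Finset.prod_const, Finset.card_range]
    _ ≤ _ := Finset.prod_le_prod (fun i _ => by positivity) (fun i _ => h0 i)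

/-- **from the continuation to the bounds** -/
theorem bound_of_continuesTo {M : ℕ} {β : ℝ} {s0 : Fin k → ℝ} (hβ : 0 < β) (hs0 : ∀ j, 0 < s0 j)
    (h : ContinuesTo k M (Fin.cons β s0)) :
    ∃ β' : ℝ, 0 < β' ∧ β' < β ∧ ∃ η : ℝ, 0 < η ∧ ∃ N : ℕ, ∀ m : ℕ, 2 ^ k < m → N < m →
      ∃ C : ℝ, 0 ≤ C ∧ ∀ s : Fin k → ℂ, (∀ j, |(s j).re - s0 j| < η) → ∀ t : ℝ, 0 < t → t ≤ 1 →
        ‖ee k M m s t‖ ≤ C * t ^ (-β') * (1 + ‖fun j => (s j).im‖) ^ N := by
  obtain ⟨ε, hε, hε1, hεs⟩ : ∃ ε : ℝ, 0 < ε ∧ ε ≤ 1 ∧ ∀ j, 2 * ε ≤ s0 j := by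
    rcases isEmpty_or_nonempty (Fin k) with he | hne
    · exact ⟨1, one_pos, le_rfl, fun j => (he.false j).elim⟩
    · obtain ⟨j0, -, hj0⟩ := Finset.exists_min_image (Finset.univ : Finset (Fin k)) s0 Finset.univ_nonempty
      refine ⟨min (s0 j0 / 2) 1, lt_min (by linarith [hs0 j0]) one_pos, min_le_right _ _, fun j => ?_⟩
      have h1 := min_le_left (s0 j0 / 2) 1
      linarith [hj0 j (Finset.mem_univ j)]
  obtain ⟨w0, hw0, hSO, hSorth, hsum⟩ := exists_far' k M hε
  obtain ⟨W, hWo, hWc, hWorth, hWO, hpW, G, hG, hG1, hG2⟩ := big_domain' h (w0 := w0) (δ := 1 / 2 - ε)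
    (by linarith) hSO
  obtain ⟨ρ, hρ, hball⟩ := Metric.isOpen_iff.1 hWo _ hpW
  set r := min (min (ρ / 2) (β / 2)) (ε / 2) with hr
  have hr0 : 0 < r := lt_min (lt_min (by linarith) (by linarith)) (by linarith)
  have hr1 : r ≤ ρ / 2 := (min_le_left _ _).trans (min_le_left _ _)
  have hr2 : r ≤ β / 2 := (min_le_left _ _).trans (min_le_right _ _)
  have hr3 : r ≤ ε / 2 := min_le_right _ _
  set b := β - r with hb
  have hb0 : 0 < b := by rw [hb]; linarith
  set q : Fin (k + 1) → ℝ := Fin.cons b (fun j => s0 j - r) with hq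
  have hqW : q ∈ W := by
    refine hball ?_
    rw [Metric.mem_ball, dist_pi_lt_iff hρ]
    intro i
    refine Fin.cases ?_ (fun j => ?_) i
    · rw [Real.dist_eq, hq]
      simp only [Fin.cons_zero]
      have : b - β = -r := by rw [hb]; ring
      rw [this, abs_neg, abs_of_pos hr0]
      linarith
    · rw [Real.dist_eq, hq]
      simp only [Fin.cons_succ]
      have : s0 j - r - s0 j = -r := by ring
      rw [this, abs_neg, abs_of_pos hr0]
      linarith
  set c := max w0 β + 1 with hc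
  have hcw : w0 < c := by have := le_max_left w0 β; linarith
  have hcβ : β < c := by have := le_max_right w0 β; linarith
  have hbc : b ≤ c := by rw [hb]; linarith
  have hc0 : 0 < c := by linarith
  set K : Set (Fin (k + 1) → ℝ) := Icc q (Fin.cons c (fun j => s0 j + r)) with hK
  have hKW : K ⊆ W := fun x hx => mem_of_ge hWo hWc hWorth hqW fun i => hx.1 i
  obtain ⟨C0, N, hCN⟩ := hG.2 K hKW isCompact_Icc
  refine ⟨b, hb0, by rw [hb]; linarith, r, hr0, N, fun m hm hNm => ?_⟩
  set A : ℝ := |C0| * (m.factorial : ℝ) * (1 + b⁻¹) ^ (m + 1) with hA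
  have hb' : 0 < b⁻¹ := inv_pos.2 hb0
  have hA0 : 0 ≤ A := by positivity
  set I2 : ℝ := ∫ y : ℝ, (1 + |y|) ^ (-(2 : ℝ)) with hI2
  have hI20 : 0 ≤ I2 := integral_nonneg fun y => by positivity
  refine ⟨1 / (2 * Real.pi) * (A * I2), by positivity, fun s hs t ht ht1 => ?_⟩
  set Y : ℝ := 1 + ‖fun j => (s j).im‖ with hY
  have hY1 : 1 ≤ Y := by rw [hY]; linarith [norm_nonneg fun j => (s j).im]
  set g : ℂ → ℂ := fun w => G (Fin.cons w s) * ((m.factorial : ℂ) / dn m w) with hg
  have hmem : ∀ w : ℂ, b ≤ w.re → w.re ≤ c →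
      (fun i => ((Fin.cons w s : Fin (k + 1) → ℂ) i).re) ∈ K := by
    intro w h1 h2
    refine ⟨fun i => ?_, fun i => ?_⟩
    · refine Fin.cases ?_ (fun j => ?_) i
      · simpa [hq] using h1
      · have h3 := abs_lt.1 (hs j)
        simp only [hq, Fin.cons_succ]
        linarith
    · refine Fin.cases ?_ (fun j => ?_) i
      · simpa using h2
      · have h3 := abs_lt.1 (hs j)
        simp only [Fin.cons_succ]
        linarith
  have hgb : ∀ w : ℂ, b ≤ w.re → w.re ≤ c → ‖g w‖ ≤ A * Y ^ N * (1 + |w.im|) ^ (-(2 : ℝ)) := by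
    intro w h1 h2
    have h3 := hCN _ (hmem w h1 h2)
    have h4 : 1 + ‖fun i => ((Fin.cons w s : Fin (k + 1) → ℂ) i).im‖ ≤ (1 + |w.im|) * Y := by
      have h5 : ‖fun i => ((Fin.cons w s : Fin (k + 1) → ℂ) i).im‖ ≤ |w.im| + ‖fun j => (s j).im‖ := by
        refine (pi_norm_le_iff_of_nonneg (by positivity)).2 fun i => ?_
        refine Fin.cases ?_ (fun j => ?_) i
        · simp only [Fin.cons_zero, Real.norm_eq_abs]
          linarith [norm_nonneg fun j => (s j).im]
        · simp only [Fin.cons_succ]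
          have := norm_le_pi_norm (fun j => (s j).im) j
          linarith [abs_nonneg w.im]
      have h6 := abs_nonneg w.im
      have h7 := norm_nonneg fun j => (s j).im
      rw [hY]
      nlinarith
    have h5 : ‖G (Fin.cons w s)‖ ≤ |C0| * ((1 + |w.im|) * Y) ^ N := by
      refine h3.trans ?_
      refine (mul_le_mul_of_nonneg_right (le_abs_self C0) (by positivity)).trans ?_
      exact mul_le_mul_of_nonneg_left (pow_le_pow_left₀ (by positivity) h4 N) (abs_nonneg _)
    have h6 := dn_lower m hb0 h1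
    have hpos : 0 < ((1 + |w.im|) / (1 + b⁻¹)) ^ (m + 1) := by positivity
    have h7 : ‖(m.factorial : ℂ) / dn m w‖ ≤ (m.factorial : ℝ) / ((1 + |w.im|) / (1 + b⁻¹)) ^ (m + 1) := by
      rw [norm_div, Complex.norm_natCast]
      exact div_le_div_of_nonneg_left (by positivity) hpos h6
    have h8 : (1 + |w.im|) ^ N / (1 + |w.im|) ^ (m + 1) ≤ (1 + |w.im|) ^ (-(2 : ℝ)) := by
      have h9 : (1 : ℝ) ≤ 1 + |w.im| := by linarith [abs_nonneg w.im]
      rw [← Real.rpow_natCast, ← Real.rpow_natCast, ← Real.rpow_sub (by linarith)]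
      apply Real.rpow_le_rpow_of_exponent_le h9
      have h10 : (N : ℝ) + 1 ≤ m := by exact_mod_cast hNm
      push_cast
      linarith
    calc ‖g w‖ = ‖G (Fin.cons w s)‖ * ‖(m.factorial : ℂ) / dn m w‖ := norm_mul _ _
      _ ≤ (|C0| * ((1 + |w.im|) * Y) ^ N) * ((m.factorial : ℝ) / ((1 + |w.im|) / (1 + b⁻¹)) ^ (m + 1)) :=
          mul_le_mul h5 h7 (norm_nonneg _) (by positivity)
      _ = A * Y ^ N * ((1 + |w.im|) ^ N / (1 + |w.im|) ^ (m + 1)) := by
          rw [hA, mul_pow, div_pow]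
          field_simp
      _ ≤ _ := mul_le_mul_of_nonneg_left h8 (by positivity)
  have hgd : ∀ w : ℂ, b ≤ w.re → w.re ≤ c → DifferentiableAt ℂ g w := by
    intro w h1 h2
    have h3 : (Fin.cons w s : Fin (k + 1) → ℂ) ∈ tube W := hKW (hmem w h1 h2)
    have h4 : DifferentiableAt ℂ G (Fin.cons w s) := (hG.1 _ h3).differentiableAt ((isOpen_tube hWo).mem_nhds h3)
    have h5 : DifferentiableAt ℂ (fun w : ℂ => (Fin.cons w s : Fin (k + 1) → ℂ)) w := by
      refine differentiableAt_pi.2 fun i => ?_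
      refine Fin.cases ?_ (fun j => ?_) i
      · simp only [Fin.cons_zero]
        exact differentiableAt_id
      · simp only [Fin.cons_succ]
        exact differentiableAt_const _
    have h6 : dn m w ≠ 0 := by
      unfold dn
      rw [Finset.prod_ne_zero_iff]
      intro i hi
      exact dn_ne (by linarith) i (Nat.lt_succ_iff.1 (Finset.mem_range.1 hi))
    have h7 : DifferentiableAt ℂ (dn m) w := by
      unfold dn
      exact DifferentiableAt.fun_finsetProd fun i _ => (differentiableAt_id.add_const _)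
    exact (DifferentiableAt.comp (g := G) (f := fun w : ℂ => (Fin.cons w s : Fin (k + 1) → ℂ)) w h4 h5).mul
      ((differentiableAt_const _).div h7 h6)
  -- the Mellin transform on the line c
  have hml : ∀ y : ℝ, mellin (ee k M m s) ((c : ℂ) + y * I) = g ((c : ℂ) + y * I) := by
    intro y
    have hre : ((c : ℂ) + y * I).re = c := by simp
    have hz : (Fin.cons ((c : ℂ) + y * I) s : Fin (k + 1) → ℂ) ∈ tube (Om k w0 (1 / 2 - ε)) := by
      refine ⟨?_, fun j => ?_⟩
      · show w0 < ((c : ℂ) + y * I).re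
        rw [hre]; exact hcw
      · show 1 / 2 - (1 / 2 - ε) < (s j).re
        have h3 := abs_lt.1 (hs j)
        linarith [hεs j]
    have h1 := (hasMellin_ee hm (by rw [hre]; exact hc0) (hsum _ hz)).2
    rw [h1, hg]
    simp only
    rw [hG1 hz]
  have hconv : MellinConvergent (ee k M m s) (c : ℂ) := by
    have hz : (Fin.cons (c : ℂ) s : Fin (k + 1) → ℂ) ∈ tube (Om k w0 (1 / 2 - ε)) := by
      refine ⟨?_, fun j => ?_⟩
      · show w0 < ((c : ℂ)).re
        rw [ofReal_re]; exact hcw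
      · show 1 / 2 - (1 / 2 - ε) < (s j).re
        have h3 := abs_lt.1 (hs j)
        linarith [hεs j]
    exact (hasMellin_ee hm (by rw [ofReal_re]; exact hc0) (hsum _ hz)).1
  have hcontline : Continuous fun y : ℝ => g ((c : ℂ) + y * I) := by
    rw [continuous_iff_continuousAt]
    intro v
    have h3 : DifferentiableAt ℂ g ((c : ℂ) + v * I) := hgd _ (by simpa using hbc) (by simp)
    have h4 : ContinuousAt (fun v : ℝ => ((c : ℂ) + v * I)) v := by fun_prop
    exact ContinuousAt.comp (g := g) (f := fun v : ℝ => ((c : ℂ) + v * I)) h3.continuousAt h4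
  have hvi : Integrable fun y : ℝ => g ((c : ℂ) + y * I) := by
    refine vline_integrable (K := A * Y ^ N) (p := 2) (by norm_num) hcontline fun v => ?_
    have := hgb ((c : ℂ) + v * I) (by simpa using hbc) (by simp)
    simpa using this
  have hvi2 : VerticalIntegrable (mellin (ee k M m s)) c := by
    unfold VerticalIntegrable
    simp only [hml]
    exact hvi
  have hinv := mellinInv_mellin_eq c (ee k M m s) ht hconv hvi2
    ((ee_cont hm s).continuousAt (Ioi_mem_nhds ht))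
  set f : ℂ → ℂ := fun w => (t : ℂ) ^ (-w) * g w with hf
  have hinv2 : ee k M m s t = (1 / (2 * Real.pi) : ℝ) • ∫ y : ℝ, f ((c : ℂ) + y * I) := by
    rw [← hinv]
    unfold mellinInv
    congr 1
    refine integral_congr_ae (Eventually.of_forall fun y => ?_)
    simp only [hml, smul_eq_mul, hf]
  have ht0 : (t : ℂ) ≠ 0 := by exact_mod_cast ht.ne'
  have hnt : ∀ w : ℂ, ‖(t : ℂ) ^ (-w)‖ = t ^ (-w.re) := by
    intro w
    rw [norm_cpow_eq_rpow_re_of_pos ht, neg_re]
  have hshift : ∫ y : ℝ, f ((b : ℂ) + y * I) = ∫ y : ℝ, f ((c : ℂ) + y * I) := by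
    refine vline_shift (K := t ^ (-c) * (A * Y ^ N)) (p := 2) hbc (by norm_num) (fun w h1 h2 => ?_) (fun w h1 h2 => ?_)
    · refine DifferentiableAt.mul ?_ (hgd w h1 h2)
      exact differentiableAt_id.neg.const_cpow (Or.inl ht0)
    · rw [hf]
      simp only
      rw [norm_mul, hnt]
      have h3 : t ^ (-w.re) ≤ t ^ (-c) := Real.rpow_le_rpow_of_exponent_ge ht ht1 (by linarith)
      calc t ^ (-w.re) * ‖g w‖ ≤ t ^ (-c) * (A * Y ^ N * (1 + |w.im|) ^ (-(2 : ℝ))) :=
            mul_le_mul h3 (hgb w h1 h2) (norm_nonneg _) (Real.rpow_nonneg ht.le _)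
        _ = _ := by ring
  rw [hinv2, ← hshift, norm_smul, Real.norm_of_nonneg (by positivity)]
  have hfin : ‖∫ y : ℝ, f ((b : ℂ) + y * I)‖ ≤ t ^ (-b) * (A * Y ^ N) * I2 := by
    rw [hI2, ← integral_const_mul]
    refine norm_integral_le_of_norm_le ((integrable_one_add_abs (by norm_num)).const_mul _)
      (Eventually.of_forall fun y => ?_)
    rw [hf]
    simp only
    rw [norm_mul, hnt]
    have h1 := hgb ((b : ℂ) + y * I) (by simp) (by simpa using hbc)
    simp only [add_re, ofReal_re, mul_re, I_re, mul_zero, ofReal_im, I_im, mul_one, sub_self, add_zero, add_im,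
      mul_im, zero_add] at h1 ⊢
    calc t ^ (-b) * ‖g ((b : ℂ) + y * I)‖ ≤ t ^ (-b) * (A * Y ^ N * (1 + |y|) ^ (-(2 : ℝ))) :=
          mul_le_mul_of_nonneg_left h1 (Real.rpow_nonneg ht.le _)
      _ = _ := by ring
  calc 1 / (2 * Real.pi) * ‖∫ y : ℝ, f ((b : ℂ) + y * I)‖ ≤ 1 / (2 * Real.pi) * (t ^ (-b) * (A * Y ^ N) * I2) :=
        mul_le_mul_of_nonneg_left hfin (by positivity)
    _ = _ := by ring

end Pool.Agent.L5helper17.RF
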