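import Mathlib

/-!
# Polynomial bounds for the factor of the functional equation
-/

set_option autoImplicit false

namespace Pool.Agent.L5helper17.RF

open Complex Filter Topology MeasureTheory Set

/-- the Beta integral with a real second argument -/
lemma norm_beta_le {u : ℂ} {v : ℝ} (hu : 0 < u.re) (hv : 0 < v) :
    ‖betaIntegral u v‖ ≤ ‖betaIntegral (u.re : ℂ) v‖ := by
  have hu' : 0 < ((u.re : ℝ) : ℂ).re := by simpa using hu
  have hv' : 0 < ((v : ℝ) : ℂ).re := by simpa using hv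
  have e1 : ∀ x ∈ Ioc (0 : ℝ) 1, ‖(x : ℂ) ^ (u - 1) * (1 - (x : ℂ)) ^ ((v : ℂ) - 1)‖ =
      (((x : ℂ) ^ (((u.re : ℝ) : ℂ) - 1) * (1 - (x : ℂ)) ^ ((v : ℂ) - 1))).re ∨ x = 1 := by
    intro x hx
    rcases eq_or_lt_of_le hx.2 with h | h
    · exact Or.inr h
    · left
      have h1 : (1 : ℂ) - (x : ℂ) = ((1 - x : ℝ) : ℂ) := by push_cast; rfl
      have h2 : ((v : ℂ) - 1) = ((v - 1 : ℝ) : ℂ) := by push_cast; rfl
      have h3 : (((u.re : ℝ) : ℂ) - 1) = ((u.re - 1 : ℝ) : ℂ) := by push_cast; rfl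
      rw [h1, h2, h3, ← ofReal_cpow (by linarith), ← ofReal_cpow hx.1.le, ← ofReal_mul, ofReal_re, norm_mul,
        norm_cpow_eq_rpow_re_of_pos hx.1, norm_real, Real.norm_of_nonneg (Real.rpow_nonneg (by linarith) _)]
      simp
  have hint := (betaIntegral_convergent hu' hv')
  have hre : (betaIntegral (u.re : ℂ) v).re = ∫ x in (0:ℝ)..1, ((x : ℂ) ^ (((u.re : ℝ) : ℂ) - 1) * (1 - (x : ℂ)) ^ ((v : ℂ) - 1)).re := by
    unfold betaIntegral
    have := (intervalIntegral.intervalIntegral_re (𝕜 := ℂ) hint)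
    simpa using this.symm
  calc ‖betaIntegral u v‖ ≤ ∫ x in (0:ℝ)..1, ‖(x : ℂ) ^ (u - 1) * (1 - (x : ℂ)) ^ ((v : ℂ) - 1)‖ := by
        unfold betaIntegral
        exact intervalIntegral.norm_integral_le_integral_norm zero_le_one
    _ = ∫ x in (0:ℝ)..1, ((x : ℂ) ^ (((u.re : ℝ) : ℂ) - 1) * (1 - (x : ℂ)) ^ ((v : ℂ) - 1)).re := by
        rw [intervalIntegral.integral_of_le zero_le_one, intervalIntegral.integral_of_le zero_le_one]
        refine integral_congr_ae ?_
        have h0 : ∀ᵐ x : ℝ, x ≠ 1 := by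
          have : ({1} : Set ℝ)ᶜ ∈ ae volume := compl_mem_ae_iff.2 (measure_singleton 1)
          exact this
        filter_upwards [ae_restrict_mem measurableSet_Ioc, ae_restrict_of_ae h0] with x hx hx1
        rcases e1 x hx with h | h
        · exact h
        · exact absurd h hx1
    _ = (betaIntegral (u.re : ℂ) v).re := hre.symm
    _ ≤ _ := re_le_norm _

/-- `|Γ(u)| / |Γ(u + v)|` is largest for real `u` -/
lemma norm_Gamma_le {u : ℂ} {v : ℝ} (hu : 0 < u.re) (hv : 0 < v) :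
    ‖Gamma u‖ ≤ Real.Gamma u.re / Real.Gamma (u.re + v) * ‖Gamma (u + v)‖ := by
  have hv' : 0 < ((v : ℝ) : ℂ).re := by simpa using hv
  have hu' : 0 < ((u.re : ℝ) : ℂ).re := by simpa using hu
  have h1 := Gamma_mul_Gamma_eq_betaIntegral hu hv'
  have h2 := Gamma_mul_Gamma_eq_betaIntegral hu' hv'
  have g1 : 0 < Real.Gamma v := Real.Gamma_pos_of_pos hv
  have g2 : 0 < Real.Gamma (u.re + v) := Real.Gamma_pos_of_pos (by linarith)
  have g3 : 0 < Real.Gamma u.re := Real.Gamma_pos_of_pos hu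
  have h3 : ‖betaIntegral (u.re : ℂ) v‖ = Real.Gamma u.re * Real.Gamma v / Real.Gamma (u.re + v) := by
    have e : ((u.re : ℝ) : ℂ) + (v : ℂ) = ((u.re + v : ℝ) : ℂ) := by push_cast; rfl
    rw [e, Gamma_ofReal, Gamma_ofReal, Gamma_ofReal] at h2
    have h4 := congrArg norm h2
    rw [norm_mul, norm_mul, norm_real, norm_real, norm_real, Real.norm_of_nonneg g3.le,
      Real.norm_of_nonneg g1.le, Real.norm_of_nonneg g2.le] at h4
    rw [eq_div_iff g2.ne', h4]
    ring
  have h5 := congrArg norm h1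
  rw [norm_mul, norm_mul, Gamma_ofReal, norm_real, Real.norm_of_nonneg g1.le] at h5
  have h6 : ‖Gamma u‖ * Real.Gamma v ≤ ‖Gamma (u + v)‖ * (Real.Gamma u.re * Real.Gamma v / Real.Gamma (u.re + v)) := by
    rw [h5, ← h3]
    exact mul_le_mul_of_nonneg_left (norm_beta_le hu hv) (norm_nonneg _)
  have h7 : ‖Gamma u‖ * Real.Gamma v ≤
      (Real.Gamma u.re / Real.Gamma (u.re + v) * ‖Gamma (u + v)‖) * Real.Gamma v := by
    refine h6.trans (le_of_eq ?_)
    ring
  exact le_of_mul_le_mul_right h7 g1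

/-- shifting the argument -/
lemma norm_Gamma_add_nat_le (z : ℂ) (m : ℕ) :
    ‖Gamma (z + m)‖ * ‖(Gamma z)⁻¹‖ ≤ (‖z‖ + m) ^ m := by
  induction m with
  | zero =>
    simp only [Nat.cast_zero, add_zero, pow_zero]
    rw [← norm_mul]
    by_cases h : Gamma z = 0
    · rw [h]; simp
    · rw [mul_inv_cancel₀ h]; simp
  | succ m ih =>
    by_cases hz : z + m = 0
    · -- then `z` is a pole
      have h1 : Gamma z = 0 := by
        rw [Complex.Gamma_eq_zero_iff]
        exact ⟨m, by linear_combination hz⟩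
      rw [h1]
      simp only [inv_zero, norm_zero, mul_zero]
      positivity
    · have h1 : Gamma (z + ((m + 1 : ℕ) : ℂ)) = (z + m) * Gamma (z + m) := by
        rw [← Gamma_add_one _ hz]
        congr 1
        push_cast
        ring
      rw [h1, norm_mul, mul_assoc]
      have h2 : ‖z + (m : ℂ)‖ ≤ ‖z‖ + m := by
        refine (norm_add_le _ _).trans ?_
        simp
      have h3 : (0 : ℝ) ≤ ‖z‖ + m := by positivity
      calc ‖z + (m : ℂ)‖ * (‖Gamma (z + m)‖ * ‖(Gamma z)⁻¹‖) ≤ (‖z‖ + m) * (‖z‖ + m) ^ m :=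
            mul_le_mul h2 ih (by positivity) h3
        _ = (‖z‖ + m) ^ (m + 1) := by ring
        _ ≤ (‖z‖ + ((m + 1 : ℕ) : ℝ)) ^ (m + 1) := by
            apply pow_le_pow_left₀ h3
            push_cast
            linarith

/-- the quotient of two Gamma functions -/
theorem gamma_quot {a0 A B : ℝ} (ha0 : 0 < a0) : ∃ (C : ℝ) (N : ℕ), 0 ≤ C ∧ ∀ u z : ℂ, a0 ≤ u.re → u.re ≤ A →
    |z.re| ≤ B → |z.im| = |u.im| → ‖Gamma u‖ * ‖(Gamma z)⁻¹‖ ≤ C * (1 + |u.im|) ^ N := by
  by_cases hA : a0 ≤ A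
  swap
  · exact ⟨0, 0, le_rfl, fun u z h1 h2 => absurd (h1.trans h2) hA⟩
  by_cases hB : 0 ≤ B
  swap
  · exact ⟨0, 0, le_rfl, fun u z _ _ h3 => absurd ((abs_nonneg _).trans h3) hB⟩
  obtain ⟨m, hm⟩ := exists_nat_ge (A + B + 1)
  -- bounds for the real Gamma function
  have hc : ContinuousOn Real.Gamma (Ioi 0) := fun x hx =>
    (Real.differentiableAt_Gamma fun m => by
      have h1 : (0 : ℝ) < x := hx
      have h2 : (0 : ℝ) ≤ m := Nat.cast_nonneg m
      intro h; rw [h] at h1; linarith).continuousAt.continuousWithinAt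
  obtain ⟨x1, -, hx1⟩ := (isCompact_Icc (a := a0) (b := A)).exists_isMaxOn ⟨a0, le_rfl, hA⟩
    (hc.mono fun x hx => lt_of_lt_of_le ha0 hx.1)
  have hne : (1 : ℝ) ≤ B + m := by linarith
  obtain ⟨x2, hx2m, hx2⟩ := (isCompact_Icc (a := (1:ℝ)) (b := B + m)).exists_isMinOn ⟨1, le_rfl, hne⟩
    (hc.mono fun x hx => lt_of_lt_of_le one_pos hx.1)
  have hg2 : 0 < Real.Gamma x2 := Real.Gamma_pos_of_pos (lt_of_lt_of_le one_pos hx2m.1)
  have hx1' : ∀ x ∈ Icc a0 A, Real.Gamma x ≤ Real.Gamma x1 := fun x hx => hx1 hx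
  have hx2' : ∀ x ∈ Icc (1:ℝ) (B + m), Real.Gamma x2 ≤ Real.Gamma x := fun x hx => hx2 hx
  have hg1 : 0 < Real.Gamma x1 := lt_of_lt_of_le (Real.Gamma_pos_of_pos ha0) (hx1' a0 ⟨le_rfl, hA⟩)
  refine ⟨Real.Gamma x1 / Real.Gamma x2 * (B + 1 + m) ^ m, m, by positivity, fun u z h1 h2 h3 h4 => ?_⟩
  have hb := abs_le.1 h3
  -- we may assume that the imaginary parts agree
  wlog him : z.im = u.im generalizing z with H
  · have h5 : z.im = -u.im := by
      rcases abs_eq_abs.1 h4 with h | h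
      · exact absurd h him
      · exact h
    have h6 := H ((starRingEnd ℂ) z) (by simpa using h3) (by simpa using h4) (by simpa using hb) (by simp [h5])
    rw [Gamma_conj] at h6
    simpa using h6
  set v : ℝ := z.re + m - u.re with hv
  have hv0 : 0 < v := by rw [hv]; linarith
  have e1 : u + v = z + m := by
    apply Complex.ext
    · simp [hv]
    · simp [him]
  have e2 : u.re + v = z.re + m := by rw [hv]; ring
  have h5 := norm_Gamma_le (u := u) (by linarith) hv0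
  rw [e1, e2] at h5
  have h6 := norm_Gamma_add_nat_le z m
  have h7 : Real.Gamma u.re / Real.Gamma (z.re + m) ≤ Real.Gamma x1 / Real.Gamma x2 :=
    div_le_div₀ hg1.le (hx1' _ ⟨h1, h2⟩) hg2 (hx2' _ ⟨by linarith, by linarith⟩)
  have h8 : ‖z‖ + m ≤ (B + 1 + m) * (1 + |u.im|) := by
    have h9 := Complex.norm_le_abs_re_add_abs_im z
    rw [h4] at h9
    have h10 : (0 : ℝ) ≤ m := Nat.cast_nonneg m
    have h11 := abs_nonneg u.im
    nlinarith [mul_nonneg hB h11, mul_nonneg h10 h11]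
  calc ‖Gamma u‖ * ‖(Gamma z)⁻¹‖
      ≤ (Real.Gamma u.re / Real.Gamma (z.re + m) * ‖Gamma (z + m)‖) * ‖(Gamma z)⁻¹‖ :=
        mul_le_mul_of_nonneg_right h5 (norm_nonneg _)
    _ = Real.Gamma u.re / Real.Gamma (z.re + m) * (‖Gamma (z + m)‖ * ‖(Gamma z)⁻¹‖) := by ring
    _ ≤ Real.Gamma x1 / Real.Gamma x2 * (‖z‖ + m) ^ m :=
        mul_le_mul h7 h6 (by positivity) (by positivity)
    _ ≤ Real.Gamma x1 / Real.Gamma x2 * ((B + 1 + m) * (1 + |u.im|)) ^ m := by
        apply mul_le_mul_of_nonneg_left _ (by positivity)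
        exact pow_le_pow_left₀ (by positivity) h8 m
    _ = _ := by rw [mul_pow]; ring

/-- the factor of the functional equation of an even character -/
noncomputable def gr (s : ℂ) : ℂ := Gammaℝ (1 - s) * (Gammaℝ s)⁻¹

lemma differentiableAt_Gammaℝ {s : ℂ} (hs : 0 < s.re) : DifferentiableAt ℂ Gammaℝ s := by
  have h1 : DifferentiableAt ℂ (fun s : ℂ => (Gammaℝ s)⁻¹) s := differentiable_Gammaℝ_inv s
  have h2 : (Gammaℝ s)⁻¹ ≠ 0 := inv_ne_zero (Gammaℝ_ne_zero_of_re_pos hs)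
  have h3 : DifferentiableAt ℂ (fun s : ℂ => ((Gammaℝ s)⁻¹)⁻¹) s := h1.inv h2
  simpa using h3

lemma gr_diff : DifferentiableOn ℂ gr {s : ℂ | s.re < 1} := by
  intro s hs
  have hs' : s.re < 1 := hs
  refine DifferentiableAt.differentiableWithinAt ?_
  unfold gr
  have h1 : DifferentiableAt ℂ (fun s : ℂ => Gammaℝ (1 - s)) s := by
    have h2 : DifferentiableAt ℂ Gammaℝ (1 - s) := differentiableAt_Gammaℝ (by simp; linarith)
    exact h2.comp s ((differentiableAt_const 1).sub differentiableAt_id)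
  exact h1.mul (differentiable_Gammaℝ_inv s)

/-- the factor of the functional equation grows polynomially -/
theorem gr_bound {a b : ℝ} (hb : b < 1) : ∃ (C : ℝ) (N : ℕ), 0 ≤ C ∧ ∀ s : ℂ, a ≤ s.re → s.re ≤ b →
    ‖gr s‖ ≤ C * (1 + |s.im|) ^ N := by
  obtain ⟨C, N, hC, h⟩ := gamma_quot (a0 := (1 - b) / 2) (A := (1 - a) / 2) (B := |a| + |b|) (by linarith)
  have hpi := Real.pi_pos
  have hc : Continuous fun x : ℝ => Real.pi ^ (x - 1 / 2) := by
    exact Continuous.rpow continuous_const (by fun_prop) (fun _ => Or.inl hpi.ne')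
  obtain ⟨D, hD⟩ := (isCompact_Icc (a := a) (b := b)).exists_bound_of_continuousOn (f := fun x : ℝ => Real.pi ^ (x - 1 / 2)) hc.continuousOn
  refine ⟨|D| * C, N, by positivity, fun s h1 h2 => ?_⟩
  have h3 := h ((1 - s) / 2) (s / 2) (by simp; linarith) (by simp; linarith) (by
      have : (s / 2).re = s.re / 2 := by simp
      rw [this, abs_div, abs_two]
      have h4 : |s.re| ≤ |a| + |b| := by
        rw [abs_le]
        constructor
        · have := neg_abs_le a
          have := abs_nonneg b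
          linarith
        · have := le_abs_self b
          have := abs_nonneg a
          linarith
      have := abs_nonneg s.re
      linarith) (by
      have e1 : (s / 2).im = s.im / 2 := by simp
      have e2 : ((1 - s) / 2).im = -(s.im / 2) := by simp; ring
      rw [e1, e2, abs_neg])
  have e1 : gr s = (Real.pi : ℂ) ^ (s - 1 / 2) * (Gamma ((1 - s) / 2) * (Gamma (s / 2))⁻¹) := by
    unfold gr
    rw [Gammaℝ_def, Gammaℝ_def, mul_inv, ← cpow_neg]
    have hpi' : (Real.pi : ℂ) ≠ 0 := by exact_mod_cast hpi.ne'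
    have e3 : (Real.pi : ℂ) ^ (s - 1 / 2) = (Real.pi : ℂ) ^ (-(1 - s) / 2) * (Real.pi : ℂ) ^ (-(-s / 2)) := by
      rw [← cpow_add _ _ hpi']
      congr 1
      ring
    rw [e3]
    ring
  have e2 : ‖(Real.pi : ℂ) ^ (s - 1 / 2)‖ ≤ |D| := by
    rw [norm_cpow_eq_rpow_re_of_pos hpi]
    have h5 := hD s.re ⟨h1, h2⟩
    rw [Real.norm_of_nonneg (Real.rpow_nonneg hpi.le _)] at h5
    have e4 : (s - 1 / 2).re = s.re - 1 / 2 := by simp
    rw [e4]
    exact h5.trans (le_abs_self D)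
  have e5 : |((1 - s) / 2).im| ≤ |s.im| := by
    have e6 : ((1 - s) / 2).im = -(s.im / 2) := by simp; ring
    rw [e6, abs_neg, abs_div, abs_two]
    have := abs_nonneg s.im
    linarith
  rw [e1, norm_mul, norm_mul]
  calc ‖(Real.pi : ℂ) ^ (s - 1 / 2)‖ * (‖Gamma ((1 - s) / 2)‖ * ‖(Gamma (s / 2))⁻¹‖)
      ≤ |D| * (C * (1 + |((1 - s) / 2).im|) ^ N) := mul_le_mul e2 h3 (by positivity) (abs_nonneg _)
    _ ≤ |D| * (C * (1 + |s.im|) ^ N) := by
        apply mul_le_mul_of_nonneg_left _ (abs_nonneg _)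
        apply mul_le_mul_of_nonneg_left _ hC
        apply pow_le_pow_left₀ (by positivity)
        linarith
    _ = _ := by ring

end Pool.Agent.L5helper17.RF
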