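import Pool.Agent.L5helper17.RF.Alg
import Pool.Agent.L5helper17.RF.Dom

/-!
# Mellin transforms of the weights
-/

set_option autoImplicit false

namespace Pool.Agent.L5helper17.RF

open Complex Filter Topology MeasureTheory Set
open Pool.Agent.Q48.MDS
open Pool.Agent.L5helper5.LE (Lx Lx_def Lx_diff S P tm P_diff Om isOpen_Om convex_Om convex_orth HB im1 im1_ge im1_le F_eq
  tempered_SP)

/-- the weight attached to a polynomial -/
noncomputable def wt (Q : Polynomial ℂ) (m : ℕ) (u : ℂ) : ℂ :=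
  ∑ i ∈ Finset.range (m + 1), sc m i * Q.eval (-(i : ℂ)) * u ^ i

/-- the weight on `(0, 1]` -/
noncomputable def g1 (Q : Polynomial ℂ) (m : ℕ) : ℝ → ℂ := indicator (Ioc 0 1) (fun t => wt Q m t)

lemma wt_one {Q : Polynomial ℂ} {m : ℕ} (hQ : Q.natDegree < m) : wt Q m 1 = 0 := by
  unfold wt
  simp only [one_pow, mul_one]
  exact sum_sc_eq_zero hQ

lemma wt_cont (Q : Polynomial ℂ) (m : ℕ) : Continuous (wt Q m) := by
  unfold wt
  fun_prop

lemma g1_eq_min {Q : Polynomial ℂ} {m : ℕ} (hQ : Q.natDegree < m) {t : ℝ} (ht : 0 < t) :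
    g1 Q m t = wt Q m ((min t 1 : ℝ) : ℂ) := by
  unfold g1
  rcases le_or_gt t 1 with h | h
  · rw [indicator_of_mem (show t ∈ Ioc (0 : ℝ) 1 from ⟨ht, h⟩), min_eq_left h]
  · rw [indicator_of_notMem (fun hm => absurd hm.2 (not_le.2 h)), min_eq_right h.le, ofReal_one, wt_one hQ]

lemma g1_of_gt (Q : Polynomial ℂ) (m : ℕ) {t : ℝ} (ht : 1 < t) : g1 Q m t = 0 := by
  unfold g1
  rw [indicator_of_notMem (fun hm => absurd hm.2 (not_le.2 ht))]

lemma g1_cont {Q : Polynomial ℂ} {m : ℕ} (hQ : Q.natDegree < m) : ContinuousOn (g1 Q m) (Ioi 0) := by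
  have h1 : ContinuousOn (fun t : ℝ => wt Q m ((min t 1 : ℝ) : ℂ)) (Ioi 0) := by
    refine Continuous.continuousOn ?_
    exact (wt_cont Q m).comp (continuous_ofReal.comp (continuous_id.min continuous_const))
  exact h1.congr fun t ht => g1_eq_min hQ ht

lemma hasMellin_g1 (Q : Polynomial ℂ) (m : ℕ) {w : ℂ} (hw : 0 < w.re) :
    HasMellin (g1 Q m) w (∑ i ∈ Finset.range (m + 1), sc m i * Q.eval (-(i : ℂ)) / (w + i)) := by
  have h1 : ∀ i : ℕ, HasMellin (indicator (Ioc 0 1) (fun t => (t : ℂ) ^ (i : ℂ) : ℝ → ℂ)) w (1 / (w + i)) := by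
    intro i
    refine hasMellin_cpow_Ioc (i : ℂ) ?_
    have : (0 : ℝ) ≤ i := Nat.cast_nonneg i
    simp only [natCast_re]
    linarith
  have h2 : ∀ t : ℝ, g1 Q m t = ∑ i ∈ Finset.range (m + 1), (sc m i * Q.eval (-(i : ℂ))) *
      indicator (Ioc 0 1) (fun t => (t : ℂ) ^ (i : ℂ) : ℝ → ℂ) t := by
    intro t
    unfold g1 wt
    by_cases ht : t ∈ Ioc (0 : ℝ) 1
    · rw [indicator_of_mem ht]
      refine Finset.sum_congr rfl fun i _ => ?_
      rw [indicator_of_mem ht, cpow_natCast]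
    · rw [indicator_of_notMem ht]
      symm
      refine Finset.sum_eq_zero fun i _ => ?_
      rw [indicator_of_notMem ht, mul_zero]
  have h3 : (fun t : ℝ => (t : ℂ) ^ (w - 1) • g1 Q m t) = fun t : ℝ => ∑ i ∈ Finset.range (m + 1),
      (sc m i * Q.eval (-(i : ℂ))) * ((t : ℂ) ^ (w - 1) • indicator (Ioc 0 1) (fun t => (t : ℂ) ^ (i : ℂ) : ℝ → ℂ) t) := by
    funext t
    rw [h2, smul_eq_mul, Finset.mul_sum]
    refine Finset.sum_congr rfl fun i _ => ?_
    rw [smul_eq_mul]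
    ring
  constructor
  · unfold MellinConvergent
    rw [h3]
    exact integrable_finsetSum _ fun i _ => ((h1 i).1).const_mul _
  · unfold mellin
    rw [h3, integral_finsetSum _ fun i _ => ((h1 i).1).const_mul _]
    refine Finset.sum_congr rfl fun i _ => ?_
    rw [integral_const_mul]
    have h4 := (h1 i).2
    unfold mellin at h4
    rw [h4]
    ring

lemma dn_ne {m : ℕ} {w : ℂ} (hw : 0 < w.re) : ∀ i ≤ m, w + (i : ℂ) ≠ 0 := by
  intro i _ h
  have h1 := congrArg Complex.re h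
  simp only [add_re, natCast_re, zero_re] at h1
  have : (0 : ℝ) ≤ i := Nat.cast_nonneg i
  linarith

lemma hasMellin_g1' {Q : Polynomial ℂ} {m : ℕ} (hQ : Q.natDegree ≤ m) {w : ℂ} (hw : 0 < w.re) :
    HasMellin (g1 Q m) w (Q.eval w * ((m.factorial : ℂ) / dn m w)) := by
  have h1 := hasMellin_g1 Q m hw
  rwa [sum_sc_div hQ (dn_ne hw), sum_sc_one (dn_ne hw)] at h1

/-- the polar factor as a polynomial in `w` -/
noncomputable def pc {k : ℕ} (s : Fin k → ℂ) : Polynomial ℂ :=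
  ∏ J : Finset (Fin k), (Polynomial.X + Polynomial.C (∑ j ∈ J, (s j - 1 / 2) - 1))

lemma eval_pc {k : ℕ} (s : Fin k → ℂ) (w : ℂ) : (pc s).eval w = P k (Fin.cons w s) := by
  unfold pc P
  rw [Polynomial.eval_prod]
  refine Finset.prod_congr rfl fun J _ => ?_
  simp only [Polynomial.eval_add, Polynomial.eval_X, Polynomial.eval_C, sigma, Fin.cons_zero, Fin.cons_succ]
  rw [Finset.sum_sub_distrib, Finset.sum_const, nsmul_eq_mul]
  ring

lemma natDegree_pc {k : ℕ} (s : Fin k → ℂ) : (pc s).natDegree = 2 ^ k := by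
  unfold pc
  rw [Polynomial.natDegree_prod_of_monic _ _ fun J _ => Polynomial.monic_X_add_C _]
  simp only [Polynomial.natDegree_X_add_C, Finset.sum_const, smul_eq_mul, mul_one]
  rw [Finset.card_univ, Fintype.card_finset, Fintype.card_fin]

open Classical in
/-- the coefficients -/
noncomputable def cfn (k M d : ℕ) (s : Fin k → ℂ) : ℂ :=
  if FundDisc d ∧ 1 < d then (kron d M : ℂ) * ∏ j : Fin k, Lx d (s j) else 0

lemma tm_cons (k M d : ℕ) (w : ℂ) (s : Fin k → ℂ) : tm k M d (Fin.cons w s) = cfn k M d s * (d : ℂ) ^ (-w) := by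
  unfold tm cfn
  split_ifs
  · simp only [Fin.cons_zero, Fin.cons_succ]
    ring
  · simp

/-- the weighted moment at `X = 1 / t` -/
noncomputable def ee (k M m : ℕ) (s : Fin k → ℂ) (t : ℝ) : ℂ :=
  ∑' d : ℕ, cfn k M d s * g1 (pc s) m (d * t)

lemma cfn_zero (k M : ℕ) (s : Fin k → ℂ) {d : ℕ} (hd : d ≤ 1) : cfn k M d s = 0 := by
  unfold cfn
  rw [if_neg (by omega)]

lemma ee_eq_sum (k M m : ℕ) (s : Fin k → ℂ) {t : ℝ} {N : ℕ} (hN : 1 < N * t) (ht : 0 < t) :
    ee k M m s t = ∑ d ∈ Finset.range N, cfn k M d s * g1 (pc s) m (d * t) := by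
  unfold ee
  refine tsum_eq_sum fun d hd => ?_
  have h1 : N ≤ d := by simpa using hd
  have h2 : (N : ℝ) ≤ d := by exact_mod_cast h1
  rw [g1_of_gt _ _ (lt_of_lt_of_le hN (mul_le_mul_of_nonneg_right h2 ht.le)), mul_zero]

lemma ee_cont {k M m : ℕ} (hm : 2 ^ k < m) (s : Fin k → ℂ) : ContinuousOn (ee k M m s) (Ioi 0) := by
  intro x hx
  have hx0 : 0 < x := hx
  obtain ⟨N, hN⟩ := exists_nat_gt (2 / x)
  rw [div_lt_iff₀ hx0] at hN
  refine ContinuousAt.continuousWithinAt ?_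
  have h1 : ee k M m s =ᶠ[𝓝 x] fun t => ∑ d ∈ Finset.range N, cfn k M d s * g1 (pc s) m (d * t) := by
    filter_upwards [Ioi_mem_nhds (show x / 2 < x by linarith)] with t ht
    have ht' : x / 2 < t := ht
    have hN0 : (0 : ℝ) ≤ N := Nat.cast_nonneg N
    refine ee_eq_sum k M m s ?_ (by linarith)
    nlinarith
  refine ContinuousAt.congr ?_ h1.symm
  refine tendsto_finsetSum _ fun d _ => ?_
  rcases Nat.eq_zero_or_pos d with hd | hd
  · subst hd
    rw [cfn_zero k M s (Nat.zero_le 1)]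
    simp only [zero_mul]
    exact tendsto_const_nhds
  have hd0 : (0 : ℝ) < d := by exact_mod_cast hd
  refine Tendsto.const_mul _ ?_
  have h2 : ContinuousAt (g1 (pc s) m) (d * x) :=
    (g1_cont (by rw [natDegree_pc]; exact hm)).continuousAt (Ioi_mem_nhds (mul_pos hd0 hx0))
  have h3 : ContinuousAt (fun t : ℝ => (d : ℝ) * t) x := by fun_prop
  exact ContinuousAt.comp (g := g1 (pc s) m) (f := fun t : ℝ => (d : ℝ) * t) h2 h3

end Pool.Agent.L5helper17.RF
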