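import Pool.Agent.L5helper17.RF.Mel

/-!
# The Mellin transform of the weighted moment
-/

set_option autoImplicit false

namespace Pool.Agent.L5helper17.RF

open Complex Filter Topology MeasureTheory Set
open Pool.Agent.Q48.MDS
open Pool.Agent.L5helper5.LE (Lx Lx_def Lx_diff S P tm P_diff Om isOpen_Om convex_Om convex_orth HB im1 im1_ge im1_le F_eq
  tempered_SP)

/-- a series of integrable functions -/
lemma integrable_tsum' {μ : Measure ℝ} {F : ℕ → ℝ → ℂ} (hF : ∀ i, Integrable (F i) μ)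
    (hs : Summable fun i => ∫ t, ‖F i t‖ ∂μ) (hm : AEStronglyMeasurable (fun t => ∑' i, F i t) μ) :
    Integrable (fun t => ∑' i, F i t) μ := by
  refine ⟨hm, ?_⟩
  have h1 : ∫⁻ t, ‖∑' i, F i t‖ₑ ∂μ ≤ ∫⁻ t, ∑' i, ‖F i t‖ₑ ∂μ := lintegral_mono fun t => enorm_tsum_le_tsum_enorm
  refine lt_of_le_of_lt h1 ?_
  rw [lintegral_tsum fun i => (hF i).1.enorm]
  have h2 : ∀ i, ∫⁻ t, ‖F i t‖ₑ ∂μ = ENNReal.ofReal (∫ t, ‖F i t‖ ∂μ) := fun i =>
    (ofReal_integral_norm_eq_lintegral_enorm (hF i)).symm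
  simp only [h2]
  rw [← ENNReal.ofReal_tsum_of_nonneg (fun i => integral_nonneg fun t => norm_nonneg _) hs]
  exact ENNReal.ofReal_lt_top

lemma integral_norm_comp (f : ℝ → ℂ) (w : ℂ) {a : ℝ} (ha : 0 < a) :
    ∫ t in Ioi (0 : ℝ), ‖(t : ℂ) ^ (w - 1) • f (a * t)‖ = a ^ (-w.re) * ∫ t in Ioi (0 : ℝ), ‖(t : ℂ) ^ (w - 1) • f t‖ := by
  have h1 : ∀ t ∈ Ioi (0 : ℝ), ‖(t : ℂ) ^ (w - 1) • f (a * t)‖ =
      a ^ (1 - w.re) * (fun u : ℝ => ‖(u : ℂ) ^ (w - 1) • f u‖) (a * t) := by
    intro t ht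
    have ht0 : (0 : ℝ) < t := ht
    simp only
    rw [norm_smul, norm_smul, norm_cpow_eq_rpow_re_of_pos ht0, norm_cpow_eq_rpow_re_of_pos (mul_pos ha ht0),
      Real.mul_rpow ha.le ht0.le]
    have h2 : a ^ (1 - w.re) * a ^ (w - 1).re = 1 := by
      rw [← Real.rpow_add ha]
      simp
    calc t ^ (w - 1).re * ‖f (a * t)‖ = (a ^ (1 - w.re) * a ^ (w - 1).re) * (t ^ (w - 1).re * ‖f (a * t)‖) := by
          rw [h2, one_mul]
      _ = _ := by ring
  rw [setIntegral_congr_fun measurableSet_Ioi h1, integral_const_mul,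
    integral_comp_mul_left_Ioi (fun u : ℝ => ‖(u : ℂ) ^ (w - 1) • f u‖) 0 ha, mul_zero, smul_eq_mul, ← mul_assoc]
  congr 1
  have h3 : a⁻¹ = a ^ (-1 : ℝ) := by rw [Real.rpow_neg_one]
  rw [h3, ← Real.rpow_add ha]
  congr 1
  ring

/-- **the Mellin transform of the weighted moment** -/
theorem hasMellin_ee {k M m : ℕ} (hm : 2 ^ k < m) {s : Fin k → ℂ} {w : ℂ} (hw : 0 < w.re)
    (hs : Summable fun d => ‖tm k M d (Fin.cons w s)‖) :
    HasMellin (ee k M m s) w (S k M (Fin.cons w s) * P k (Fin.cons w s) * ((m.factorial : ℂ) / dn m w)) := by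
  have hQ : (pc s).natDegree ≤ m := by rw [natDegree_pc]; exact hm.le
  obtain ⟨hg1, hg2⟩ := hasMellin_g1' hQ hw
  set F : ℕ → ℝ → ℂ := fun d t => (t : ℂ) ^ (w - 1) • (cfn k M d s * g1 (pc s) m (d * t)) with hF
  have e0 : ∀ d, F d = fun t : ℝ => cfn k M d s * ((t : ℂ) ^ (w - 1) • g1 (pc s) m (d * t)) := by
    intro d
    funext t
    simp only [hF, smul_eq_mul]
    ring
  have hint : ∀ d, Integrable (F d) (volume.restrict (Ioi 0)) := by
    intro d
    rcases Nat.eq_zero_or_pos d with hd | hd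
    · subst hd
      rw [e0, cfn_zero k M s (Nat.zero_le 1)]
      simp
    · have hd0 : (0 : ℝ) < d := by exact_mod_cast hd
      rw [e0]
      exact ((MellinConvergent.comp_mul_left hd0).2 hg1).const_mul _
  set K : ℝ := ∫ t in Ioi (0 : ℝ), ‖(t : ℂ) ^ (w - 1) • g1 (pc s) m t‖ with hK
  have hnorm : ∀ d, ∫ t in Ioi (0 : ℝ), ‖F d t‖ = ‖tm k M d (Fin.cons w s)‖ * K := by
    intro d
    rcases Nat.eq_zero_or_pos d with hd | hd
    · subst hd
      rw [e0, tm_cons, cfn_zero k M s (Nat.zero_le 1)]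
      simp
    · have hd0 : (0 : ℝ) < d := by exact_mod_cast hd
      rw [e0]
      simp only [norm_mul]
      rw [integral_const_mul, integral_norm_comp _ _ hd0, tm_cons, norm_mul,
        Complex.norm_natCast_cpow_of_pos hd, neg_re, hK]
      ring
  have hsum : Summable fun d => ∫ t in Ioi (0 : ℝ), ‖F d t‖ := by
    simp only [hnorm]
    exact hs.mul_right K
  have e1 : (fun t : ℝ => (t : ℂ) ^ (w - 1) • ee k M m s t) = fun t => ∑' d, F d t := by
    funext t
    unfold ee
    rw [smul_eq_mul, ← tsum_mul_left]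
    rfl
  have hmeas : AEStronglyMeasurable (fun t => ∑' d, F d t) (volume.restrict (Ioi 0)) := by
    rw [← e1]
    refine ContinuousOn.aestronglyMeasurable ?_ measurableSet_Ioi
    have hc : ContinuousOn (fun t : ℝ => (t : ℂ) ^ (w - 1)) (Ioi 0) := ?_
    · exact hc.smul (ee_cont hm s)
    intro t ht
    have ht0 : (0 : ℝ) < t := ht
    refine ContinuousAt.continuousWithinAt ?_
    exact ContinuousAt.cpow continuous_ofReal.continuousAt continuousAt_const (Or.inl (by simpa using ht0))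
  constructor
  · unfold MellinConvergent
    rw [e1]
    exact integrable_tsum' hint hsum hmeas
  · unfold mellin
    rw [e1, ← (hasSum_integral_of_summable_integral_norm hint hsum).tsum_eq]
    have h3 : ∀ d, ∫ t in Ioi (0 : ℝ), F d t = tm k M d (Fin.cons w s) *
        ((pc s).eval w * ((m.factorial : ℂ) / dn m w)) := by
      intro d
      rcases Nat.eq_zero_or_pos d with hd | hd
      · subst hd
        rw [e0, tm_cons, cfn_zero k M s (Nat.zero_le 1)]
        simp
      · have hd0 : (0 : ℝ) < d := by exact_mod_cast hd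
        rw [e0, integral_const_mul]
        have h4 := mellin_comp_mul_left (g1 (pc s) m) w hd0
        unfold mellin at h4 hg2
        rw [h4, hg2, tm_cons, smul_eq_mul]
        push_cast
        ring
    simp only [h3]
    rw [tsum_mul_right, eval_pc]
    unfold S
    ring

end Pool.Agent.L5helper17.RF
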