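import Pool.Agent.L5helper17.RF.Root

/-!
# The reflections of the region of continuation
-/

set_option autoImplicit false

namespace Pool.Agent.L5helper17.RF

open Complex Filter Topology MeasureTheory Set
open Pool.Agent.Q48.MDS
open Pool.Agent.L5helper5.LE (Lx Lx_def S P tm P_diff Om isOpen_Om convex_Om convex_orth HB im1 im1_ge im1_le F_eq
  tempered_SP half_bound LBx_one tm_bound_Om S_of_bound)

variable {k : ℕ}

/-- the reflection in the variables `s_j`, `j ∈ J`: `s_j ↦ 1 - s_j` and `w ↦ w + ∑_J (s_j - 1/2)` -/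
noncomputable def rf {R : Type*} [Field R] (J : Finset (Fin k)) (x : Fin (k + 1) → R) : Fin (k + 1) → R :=
  Fin.cons (x 0 + ∑ j ∈ J, (x j.succ - 1 / 2)) (fun j => if j ∈ J then 1 - x j.succ else x j.succ)

section
variable {R : Type*} [Field R]

lemma rf_zero (J : Finset (Fin k)) (x : Fin (k + 1) → R) :
    rf J x 0 = x 0 + ∑ j ∈ J, (x j.succ - 1 / 2) := by simp [rf]

lemma rf_mem {J : Finset (Fin k)} {j : Fin k} (h : j ∈ J) (x : Fin (k + 1) → R) :
    rf J x j.succ = 1 - x j.succ := by simp [rf, h]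

lemma rf_notMem {J : Finset (Fin k)} {j : Fin k} (h : j ∉ J) (x : Fin (k + 1) → R) :
    rf J x j.succ = x j.succ := by simp [rf, h]

end

lemma rf_rf {R : Type*} [Field R] [CharZero R] (J : Finset (Fin k)) (x : Fin (k + 1) → R) : rf J (rf J x) = x := by
  funext i
  refine Fin.cases ?_ (fun j => ?_) i
  · rw [rf_zero, rf_zero]
    have h1 : ∑ j ∈ J, (rf J x j.succ - 1 / 2) = -∑ j ∈ J, (x j.succ - 1 / 2) := by
      rw [← Finset.sum_neg_distrib]
      refine Finset.sum_congr rfl fun j hj => ?_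
      rw [rf_mem hj]
      field_simp
      ring
    rw [h1]
    ring
  · by_cases hj : j ∈ J
    · rw [rf_mem hj, rf_mem hj]; ring
    · rw [rf_notMem hj, rf_notMem hj]

lemma rf_re (J : Finset (Fin k)) (z : Fin (k + 1) → ℂ) :
    (fun i => (rf J z i).re) = rf J (fun i => (z i).re) := by
  funext i
  refine Fin.cases ?_ (fun j => ?_) i
  · rw [rf_zero, rf_zero]
    simp
  · by_cases hj : j ∈ J
    · rw [rf_mem hj, rf_mem hj]; simp
    · rw [rf_notMem hj, rf_notMem hj]

lemma rf_comb (J : Finset (Fin k)) (x y : Fin (k + 1) → ℝ) {a b : ℝ} (hab : a + b = 1) :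
    rf J (a • x + b • y) = a • rf J x + b • rf J y := by
  funext i
  refine Fin.cases ?_ (fun j => ?_) i
  · simp only [Pi.add_apply, Pi.smul_apply, smul_eq_mul, rf_zero]
    rw [mul_add, mul_add, Finset.mul_sum, Finset.mul_sum]
    have h1 : ∑ j ∈ J, (a * x j.succ + b * y j.succ - 1 / 2) =
        ∑ j ∈ J, a * (x j.succ - 1 / 2) + ∑ j ∈ J, b * (y j.succ - 1 / 2) := by
      rw [← Finset.sum_add_distrib]
      refine Finset.sum_congr rfl fun j _ => ?_
      linear_combination ((1 : ℝ) / 2) * hab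
    rw [h1]
    ring
  · by_cases hj : j ∈ J
    · simp only [Pi.add_apply, Pi.smul_apply, smul_eq_mul, rf_mem hj]
      linear_combination (-1 : ℝ) * hab
    · simp only [Pi.add_apply, Pi.smul_apply, smul_eq_mul, rf_notMem hj]

lemma rf_cont (J : Finset (Fin k)) : Continuous (rf J : (Fin (k + 1) → ℝ) → (Fin (k + 1) → ℝ)) := by
  refine continuous_pi fun i => ?_
  refine Fin.cases ?_ (fun j => ?_) i
  · simp only [rf_zero]
    exact (continuous_apply 0).add (continuous_finsetSum _ fun j _ => (continuous_apply _).sub continuous_const)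
  · by_cases hj : j ∈ J
    · simp only [rf_mem hj]
      exact continuous_const.sub (continuous_apply _)
    · simp only [rf_notMem hj]
      exact continuous_apply _

lemma rf_differentiable (J : Finset (Fin k)) : Differentiable ℂ (rf J : (Fin (k + 1) → ℂ) → (Fin (k + 1) → ℂ)) := by
  refine differentiable_pi.2 fun i => ?_
  refine Fin.cases ?_ (fun j => ?_) i
  · simp only [rf_zero]
    exact (differentiable_apply 0).add (Differentiable.fun_sum fun j _ => (differentiable_apply _).sub_const _)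
  · by_cases hj : j ∈ J
    · simp only [rf_mem hj]
      exact (differentiable_apply _).const_sub _
    · simp only [rf_notMem hj]
      exact differentiable_apply _

lemma sigma_eq (K : Finset (Fin k)) (z : Fin (k + 1) → ℂ) :
    sigma K z = z 0 + ∑ j : Fin k, (if j ∈ K then z j.succ - 1 / 2 else 0) := by
  unfold sigma
  rw [← Finset.sum_filter, Finset.filter_mem_eq_inter, Finset.univ_inter, Finset.sum_sub_distrib,
    Finset.sum_const, nsmul_eq_mul]
  ring

lemma sigma_rf (J K : Finset (Fin k)) (z : Fin (k + 1) → ℂ) : sigma K (rf J z) = sigma (symmDiff J K) z := by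
  rw [sigma_eq, sigma_eq, rf_zero]
  have h1 : ∑ j ∈ J, (z j.succ - 1 / 2) = ∑ j : Fin k, (if j ∈ J then z j.succ - 1 / 2 else 0) := by
    rw [← Finset.sum_filter, Finset.filter_mem_eq_inter, Finset.univ_inter]
  rw [h1, add_assoc, ← Finset.sum_add_distrib]
  congr 1
  refine Finset.sum_congr rfl fun j _ => ?_
  by_cases hJ : j ∈ J <;> by_cases hK : j ∈ K
  · have h2 : j ∉ symmDiff J K := by simp [Finset.mem_symmDiff, hJ, hK]
    rw [if_pos hJ, if_pos hK, if_neg h2, rf_mem hJ]
    ring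
  · have h2 : j ∈ symmDiff J K := by simp [Finset.mem_symmDiff, hJ, hK]
    rw [if_pos hJ, if_neg hK, if_pos h2]
    ring
  · have h2 : j ∈ symmDiff J K := by simp [Finset.mem_symmDiff, hJ, hK]
    rw [if_neg hJ, if_pos hK, if_pos h2, rf_notMem hJ]
    ring
  · have h2 : j ∉ symmDiff J K := by simp [Finset.mem_symmDiff, hJ, hK]
    rw [if_neg hJ, if_neg hK, if_neg h2]
    ring

lemma P_rf (J : Finset (Fin k)) (z : Fin (k + 1) → ℂ) : P k (rf J z) = P k z := by
  unfold P
  simp only [sigma_rf]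
  have hinv : Function.Involutive (fun K : Finset (Fin k) => symmDiff J K) := fun K => symmDiff_symmDiff_cancel_left J K
  exact Fintype.prod_equiv (hinv.toPerm) _ _ (fun K => rfl)

lemma prod_cpow {d : ℂ} (hd : d ≠ 0) {ι : Type*} (J : Finset ι) (c : ι → ℂ) :
    ∏ j ∈ J, d ^ (c j) = d ^ (∑ j ∈ J, c j) := by
  classical
  induction J using Finset.induction_on with
  | empty => simp
  | insert a s ha ih => rw [Finset.prod_insert ha, Finset.sum_insert ha, ih, cpow_add _ _ hd]

/-- the functional equation of the terms -/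
lemma tm_rf (M d : ℕ) {J : Finset (Fin k)} {z : Fin (k + 1) → ℂ} (hz : ∀ j ∈ J, (z j.succ).re < 1) :
    tm k M d z = (∏ j ∈ J, gr (z j.succ)) * tm k M d (rf J z) := by
  classical
  unfold tm
  split_ifs with h
  swap
  · rw [mul_zero]
  obtain ⟨hd, h1⟩ := h
  have hd0 : (d : ℂ) ≠ 0 := by exact_mod_cast (by omega : d ≠ 0)
  have e1 : ∏ j : Fin k, Lx d (z j.succ) =
      (∏ j ∈ J, ((d : ℂ) ^ (1 / 2 - z j.succ) * gr (z j.succ))) * ∏ j : Fin k, Lx d (rf J z j.succ) := by
    have h2 : ∏ j ∈ J, ((d : ℂ) ^ (1 / 2 - z j.succ) * gr (z j.succ)) =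
        ∏ j : Fin k, (if j ∈ J then ((d : ℂ) ^ (1 / 2 - z j.succ) * gr (z j.succ)) else 1) := by
      rw [← Finset.prod_filter, Finset.filter_mem_eq_inter, Finset.univ_inter]
    rw [h2, ← Finset.prod_mul_distrib]
    refine Finset.prod_congr rfl fun j _ => ?_
    by_cases hj : j ∈ J
    · rw [if_pos hj, rf_mem hj, Lx_fe hd h1 (hz j hj)]
    · rw [if_neg hj, rf_notMem hj, one_mul]
  have e2 : (d : ℂ) ^ (-(rf J z 0)) = (d : ℂ) ^ (-(z 0)) * ∏ j ∈ J, (d : ℂ) ^ (1 / 2 - z j.succ) := by
    rw [rf_zero, prod_cpow hd0, ← cpow_add _ _ hd0]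
    congr 1
    rw [neg_add, ← Finset.sum_neg_distrib]
    congr 1
    exact Finset.sum_congr rfl fun j _ => by ring
  rw [e1, e2, Finset.prod_mul_distrib]
  ring

lemma S_rf (M : ℕ) {J : Finset (Fin k)} {z : Fin (k + 1) → ℂ} (hz : ∀ j ∈ J, (z j.succ).re < 1) :
    S k M z = (∏ j ∈ J, gr (z j.succ)) * S k M (rf J z) := by
  unfold S
  rw [← tsum_mul_left]
  exact tsum_congr fun d => tm_rf M d hz

end Pool.Agent.L5helper17.RF
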