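import Pool.Agent.L5helper5.LE.Dict
import Pool.Agent.W215.QP.Fe
import Pool.Agent.H423R2.RGL.CC1
import Pool.Agent.L5helper17.RF.Gam

/-!
# The functional equation of the L-functions of the positive fundamental discriminants
-/

set_option autoImplicit false

namespace Pool.Agent.L5helper17.RF

open Complex Filter Topology MeasureTheory Set
open Pool.Agent.Q48.MDS
open Pool.Agent.L5helper5.LE (Lx Lx_def chr chr_ne chr_apply Lx_conj char_unique Lx_diff)
open Pool.Agent.H306R2.RG Pool.Agent.H306R2.RZ Pool.Agent.W169.QP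

/-- the odd part -/
lemma odd_part {n : ℕ} (hn : n ≠ 0) : Odd (n / 2 ^ (n.factorization 2)) := by
  have h := Nat.coprime_ordCompl (Nat.prime_two) hn
  exact (Nat.coprime_two_left).1 h

lemma jac_four {a : ℤ} {n : ℕ} (hn : Odd n) : jacobiSym (4 * a) n = jacobiSym a n := by
  rw [jacobiSym.mul_left, jacobiSym.at_four hn, one_mul]

/-- a positive fundamental discriminant belongs to one of the families -/
lemma fam_of_fund {D : ℕ} (hD : FundDisc D) (h1 : 1 < D) : ∃ (φ : FD) (d : ℕ), Fam φ ∧ φ.A d ∧ Squarefree d ∧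
    φ.r * d = D ∧ φ.a = 0 ∧ ∀ n : ℕ, n ≠ 0 → cf φ d n = ((kron D n : ℤ) : ℝ) := by
  have hfac : ∀ n : ℕ, n.factorization 2 = padicValNat 2 n := fun n => Nat.factorization_def n Nat.prime_two
  rcases hD with ⟨h4, hsq⟩ | ⟨m, rfl, hm | hm, hsq⟩
  · -- `D ≡ 1 (4)`
    have hns : ¬ IsSquare (((1 : ℤ) * (D : ℤ))) := by
      rw [one_mul]
      rintro ⟨r, hr⟩
      have h2 : D = r.natAbs * r.natAbs := by
        have := congrArg Int.natAbs hr
        rwa [Int.natAbs_natCast, Int.natAbs_mul] at this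
      have h3 := hsq r.natAbs ⟨1, by rw [mul_one]; exact h2⟩
      rw [Nat.isUnit_iff] at h3
      rw [h3] at h2
      omega
    have key : ∀ c : ℤ, (c = 1 ∨ c = 5) → (D : ℤ) % 8 = c → ∀ n : ℕ, n ≠ 0 →
        cf (F1 1 c) D n = ((kron D n : ℤ) : ℝ) := by
      intro c hc hc8 n hn
      unfold cf kron jo
      rw [hfac]
      have hodd := odd_part hn
      rw [hfac] at hodd
      rw [if_pos hodd]
      have e1 : (F1 1 c).η = ((kronTwo D : ℤ) : ℝ) := by
        unfold F1 kronTwo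
        rcases hc with rfl | rfl
        · have : D % 8 = 1 := by omega
          simp [this]
        · have : D % 8 = 5 := by omega
          simp [this]
      have e2 : (F1 1 c).e = 1 := rfl
      rw [e1, e2, one_mul]
      unfold js
      push_cast
      rfl
    rcases (by omega : D % 8 = 1 ∨ D % 8 = 5) with h8 | h8
    · refine ⟨F1 1 1, D, ⟨1, Or.inl rfl, Or.inr (Or.inr (Or.inl rfl))⟩, ⟨by omega, hns⟩, hsq, by simp [F1],
        by simp [F1], key 1 (Or.inl rfl) (by omega)⟩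
    · refine ⟨F1 1 5, D, ⟨1, Or.inl rfl, Or.inr (Or.inr (Or.inr rfl))⟩, ⟨by omega, hns⟩, hsq, by simp [F1],
        by simp [F1], key 5 (Or.inr rfl) (by omega)⟩
  · -- `D = 8 d`
    obtain ⟨d, hd⟩ : ∃ d, m = 2 * d := ⟨m / 2, by omega⟩
    subst hd
    have hodd : Odd d := by rw [Nat.odd_iff]; omega
    refine ⟨F8 1, d, ⟨1, Or.inl rfl, Or.inl rfl⟩, hodd, hsq.squarefree_of_dvd ⟨2, by ring⟩, ?_, by simp [F8], ?_⟩
    · show 8 * d = 4 * (2 * d)
      ring
    · intro n hn
      unfold cf kron jo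
      rw [hfac]
      have hodd' := odd_part hn
      rw [hfac] at hodd'
      rw [if_pos hodd']
      have e1 : (F8 1).η = ((kronTwo (4 * (2 * d)) : ℤ) : ℝ) := by
        unfold F8 kronTwo
        have : 4 * (2 * d) % 8 = 0 := by omega
        simp [this]
      have e2 : (F8 1).e = 2 := rfl
      rw [e1, e2]
      unfold js
      set n' := n / 2 ^ (padicValNat 2 n) with hn'
      have e4 : ((4 * (2 * d) : ℕ) : ℤ) = 4 * (2 * (d : ℤ)) := by push_cast; ring
      rw [e4, jac_four hodd']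
      push_cast
      rfl
  · -- `D = 4 d`
    refine ⟨F4 1, m, ⟨1, Or.inl rfl, Or.inr (Or.inl rfl)⟩, ?_, hsq, rfl, by simp [F4], ?_⟩
    · show (1 * (m : ℤ)) % 4 = 3
      omega
    · intro n hn
      unfold cf kron jo
      rw [hfac]
      have hodd' := odd_part hn
      rw [hfac] at hodd'
      rw [if_pos hodd']
      have e1 : (F4 1).η = ((kronTwo (4 * m) : ℤ) : ℝ) := by
        unfold F4 kronTwo
        have : 4 * m % 8 = 4 := by omega
        simp [this]
      have e2 : (F4 1).e = 1 := rfl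
      rw [e1, e2, one_mul]
      unfold js
      have e4 : ((4 * m : ℕ) : ℤ) = 4 * (m : ℤ) := by push_cast; ring
      rw [e4, jac_four hodd']
      push_cast
      rfl

/-- the character of a positive fundamental discriminant is primitive, quadratic and even -/
lemma chr_props {D : ℕ} (hD : FundDisc D) (h1 : 1 < D) : (chr hD h1).IsPrimitive ∧ (chr hD h1) ^ 2 = 1 ∧
    (chr hD h1).Even := by
  obtain ⟨φ, d, hφ, hA, hs, hr, ha, hcf⟩ := fam_of_fund hD h1
  obtain ⟨-, χ, h2, h3, -, h5, h6⟩ := LnkC.CC1 φ hφ d hA hs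
  subst hr
  have e : chr hD h1 = χ := char_unique h1 (fun n hn => chr_apply hD h1 hn) (fun n hn => by
    rw [h5 n (by omega), hcf n (by omega)]
    push_cast
    rfl)
  rw [e]
  refine ⟨h2, h3, ?_⟩
  rw [ha, if_pos rfl] at h6
  exact h6

/-- the root number -/
lemma root_one {D : ℕ} (hD : FundDisc D) (h1 : 1 < D) [NeZero D] :
    DirichletCharacter.rootNumber (chr hD h1) = 1 := by
  obtain ⟨hp, h2, hev⟩ := chr_props hD h1
  have h3 := chr_ne hD h1
  obtain ⟨-, hsym, hpos⟩ := Pool.Agent.W215.QP.fe D inferInstance (chr hD h1) hp h2 h3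
  have hinv : (chr hD h1)⁻¹ = chr hD h1 := by
    have : chr hD h1 * chr hD h1 = 1 := by rw [← pow_two]; exact h2
    exact inv_eq_of_mul_eq_one_left this
  set W := DirichletCharacter.rootNumber (chr hD h1) with hW
  set c := DirichletCharacter.completedLFunction (chr hD h1) 1 with hc
  have hD0 : (0 : ℝ) < D := by exact_mod_cast (by omega : 0 < D)
  have hDc : (D : ℂ) ≠ 0 := by exact_mod_cast hD0.ne'
  -- the value at `1` is real
  have hcreal : (starRingEnd ℂ) c = c := by
    have e1 := DirichletCharacter.LFunction_eq_completed_div_gammaFactor (chr hD h1) 1 (Or.inl one_ne_zero)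
    rw [hev.gammaFactor_def, Gammaℝ_one, div_one, ← hc, ← Lx_def hD h1] at e1
    rw [← e1, ← Lx_conj hD h1 (by simp), map_one]
  have hcre : c = ((c.re : ℝ) : ℂ) := by
    rw [Complex.conj_eq_iff_re] at hcreal
    exact hcreal.symm
  have h4 : 0 < Lam (chr hD h1) 1 := hpos 1 le_rfl
  unfold Lam at h4
  have hcpos : 0 < c.re := by
    have h5 : 0 < (D : ℝ) ^ ((1 : ℝ) / 2) := Real.rpow_pos_of_pos hD0 _
    rw [ofReal_one, ← hc] at h4
    exact (mul_pos_iff_of_pos_left h5).1 h4
  -- the functional equation at `1`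
  have h6 := hp.completedLFunction_one_sub 1
  rw [hinv, ← hW, ← hc, show (1 : ℂ) - 1 = 0 by ring, show (1 : ℂ) - 1 / 2 = ((1 / 2 : ℝ) : ℂ) by push_cast; ring] at h6
  have h7 := hsym 1
  unfold Lam at h7
  rw [sub_self, ofReal_zero, ofReal_one, ← hc, h6, hcre] at h7
  have e2 : ((D : ℂ) ^ (((1 / 2 : ℝ)) : ℂ)) = (((D : ℝ) ^ (1 / 2 : ℝ) : ℝ) : ℂ) := by
    rw [Complex.ofReal_cpow hD0.le]
    push_cast
    rfl
  rw [e2] at h7
  simp only [zero_div, Real.rpow_zero, one_mul, ofReal_re, mul_re, ofReal_im, mul_zero, sub_zero, zero_mul] at h7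
  have h5 : 0 < (D : ℝ) ^ ((1 : ℝ) / 2) := Real.rpow_pos_of_pos hD0 _
  have hre : W.re = 1 := by
    have h8 : ((D : ℝ) ^ ((1 : ℝ) / 2) * c.re) * (W.re - 1) = 0 := by linear_combination h7
    rcases mul_eq_zero.1 h8 with h | h
    · exact absurd h (mul_pos h5 hcpos).ne'
    · linarith
  -- the square of the root number
  have h9 := hp.completedLFunction_one_sub 0
  rw [hinv, ← hW, show (1 : ℂ) - 0 = 1 by ring, ← hc, h6, show (0 : ℂ) - 1 / 2 = -((1 / 2 : ℝ) : ℂ) by push_cast; ring,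
    cpow_neg] at h9
  have h10 : (D : ℂ) ^ (((1 / 2 : ℝ)) : ℂ) ≠ 0 := by
    rw [e2]; exact_mod_cast h5.ne'
  have hc0 : c ≠ 0 := by
    rw [hcre]; exact_mod_cast hcpos.ne'
  have h11 : W * W = 1 := by
    have h12 : c = W * W * c := by
      calc c = ((D : ℂ) ^ (((1 / 2 : ℝ)) : ℂ))⁻¹ * W * ((D : ℂ) ^ (((1 / 2 : ℝ)) : ℂ) * W * c) := h9
        _ = ((D : ℂ) ^ (((1 / 2 : ℝ)) : ℂ))⁻¹ * (D : ℂ) ^ (((1 / 2 : ℝ)) : ℂ) * (W * W * c) := by ring
        _ = W * W * c := by rw [inv_mul_cancel₀ h10, one_mul]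
    have h13 : (W * W - 1) * c = 0 := by linear_combination -h12
    rcases mul_eq_zero.1 h13 with h | h
    · exact sub_eq_zero.1 h
    · exact absurd h hc0
  rcases mul_self_eq_one_iff.1 h11 with h | h
  · exact h
  · rw [h] at hre
    norm_num at hre

/-- **the functional equation** -/
theorem Lx_fe {D : ℕ} (hD : FundDisc D) (h1 : 1 < D) {s : ℂ} (hs : s.re < 1) :
    Lx D s = (D : ℂ) ^ (1 / 2 - s) * gr s * Lx D (1 - s) := by
  have : NeZero D := ⟨by omega⟩
  obtain ⟨hp, h2, hev⟩ := chr_props hD h1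
  have hinv : (chr hD h1)⁻¹ = chr hD h1 := by
    have : chr hD h1 * chr hD h1 = 1 := by rw [← pow_two]; exact h2
    exact inv_eq_of_mul_eq_one_left this
  have h3 := hp.completedLFunction_one_sub (1 - s)
  rw [hinv, root_one hD h1, mul_one, show (1 : ℂ) - (1 - s) = s by ring,
    show (1 : ℂ) - s - 1 / 2 = 1 / 2 - s by ring] at h3
  have hne : D ≠ 1 := by omega
  have h4 := DirichletCharacter.LFunction_eq_completed_div_gammaFactor (chr hD h1) s (Or.inr hne)
  have h5 := DirichletCharacter.LFunction_eq_completed_div_gammaFactor (chr hD h1) (1 - s) (Or.inr hne)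
  rw [hev.gammaFactor_def] at h4 h5
  have h6 : Gammaℝ (1 - s) ≠ 0 := Gammaℝ_ne_zero_of_re_pos (by simp; linarith)
  rw [eq_div_iff h6] at h5
  rw [Lx_def hD h1, Lx_def hD h1, h4, h3, ← h5]
  unfold gr
  ring

end Pool.Agent.L5helper17.RF
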